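import Pool.Agent.Helper9.RK.ParK
import Pool.Agent.Helper95.RK.GoalsB

/-!
# The pull back matrix of an invariant Hermitian metric
-/

open Complex Metric Set Filter Topology MeasureTheory
open scoped ContDiff ComplexConjugate ComplexOrder Manifold Matrix

namespace Pool.Agent.Helper35.RK

open Pool.Agent.Helper95.Lin Pool.Agent.Helper16.Abund Pool.Agent.Helper92.Orb
open Pool.Agent.Helper10.SP Pool.Agent.Helper95.RK

universe u v

theorem dvec_comp_fderiv {n : ℕ} {M : Type v} [TopologicalSpace M] [ChartedSpace (Fin n → ℂ) M]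
    {ψ : Cn n → M} {φ : Cn n → Cn n} {x : Cn n}
    (hψ : MDifferentiableAt 𝓘(ℂ, Fin n → ℂ) 𝓘(ℂ, Fin n → ℂ) ψ (φ x))
    (hφ : DifferentiableAt ℂ φ x) (u : Cn n) :
    dvec n (ψ ∘ φ) x u = dvec n ψ (φ x) (fderiv ℂ φ x u) := by
  have h1 : MDifferentiableAt 𝓘(ℂ, Fin n → ℂ) 𝓘(ℂ, Fin n → ℂ) φ x :=
    mdifferentiableAt_iff_differentiableAt.2 hφ
  unfold dvec dmap
  rw [mfderiv_comp x hψ h1, mfderiv_eq_fderiv]
  rfl

/-- PMB. -/
theorem pmb : S_PMB.{u, v} := by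
  intro b k G M _ _ _ _ _ _ h v hData q hq hinv
  have hact := hData.act
  constructor
  · intro V ψ hψ
    refine ⟨fun i j => Pool.Agent.Helper9.RK.pm_smooth (hq.2 V ψ hψ.1) i j,
      fun x hx => Pool.Agent.Helper9.RK.pm_posDef hq.1 (hψ.2 x hx),
      fun x _ u w => Pool.Agent.Helper9.RK.hermi_pm q ψ x u w, ?_⟩
    intro γ x hx
    have hm : MDifferentiableAt 𝓘(ℂ, Fin (b + k) → ℂ) 𝓘(ℂ, Fin (b + k) → ℂ) ψ x :=
      hψ.1.2.mdifferentiableAt (hψ.1.1.mem_nhds hx)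
    have hd : ∀ u : Cn (b + k), dvec (b + k) (fun y => γ • ψ y) x u =
        tvec (b + k) (fun y : M => γ • y) (ψ x) (dvec (b + k) ψ x u) := by
      intro u
      show dvec (b + k) ((fun y : M => γ • y) ∘ ψ) x u = _
      unfold dvec dmap tvec
      rw [mfderiv_comp x (hact.holo γ (ψ x)) hm]
      rfl
    ext i j
    show herm (q (γ • ψ x)) (dvec (b + k) (fun y => γ • ψ y) x (Pi.single i 1))
      (dvec (b + k) (fun y => γ • ψ y) x (Pi.single j 1)) = _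
    rw [hd, hd]
    exact hinv γ (ψ x) _ _
  · intro V V' ψ φ hψ hV' hφ hmaps _ x hx u w
    have hm : MDifferentiableAt 𝓘(ℂ, Fin (b + k) → ℂ) 𝓘(ℂ, Fin (b + k) → ℂ) ψ (φ x) :=
      hψ.1.2.mdifferentiableAt (hψ.1.1.mem_nhds (hmaps hx))
    have hφx : DifferentiableAt ℂ φ x := hφ.differentiableAt (hV'.mem_nhds hx)
    rw [Pool.Agent.Helper9.RK.hermi_pm, Pool.Agent.Helper9.RK.hermi_pm,
      dvec_comp_fderiv hm hφx, dvec_comp_fderiv hm hφx]
    rfl

end Pool.Agent.Helper35.RK
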