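import Pool.Agent.Helper95.RK.GoalsC
import Pool.Agent.Helper95.RK.Basics
import Pool.Agent.Helper35.SP.PAX

/-!
# Maps `(z, w) ↦ (g z, A z w + β z)`: derivative, determinant, holomorphy of the inverse matrix
-/

open Complex Metric Set Filter Topology MeasureTheory
open scoped ContDiff ComplexConjugate ComplexOrder Manifold Matrix

namespace Pool.Agent.Helper35.RK

open Pool.Agent.Helper95.Lin Pool.Agent.Helper16.Abund Pool.Agent.Helper92.Orb
open Pool.Agent.Helper10.SP Pool.Agent.Helper95.RK

variable {b k : ℕ}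

/-- Determinant of a block triangular map. -/
theorem det_blockK (L : Cn (b + k) →L[ℂ] Cn (b + k)) (A' : Cn b →L[ℂ] Cn b)
    (m : Cn (b + k) →L[ℂ] Cn k) (D : Matrix (Fin k) (Fin k) ℂ)
    (hL : ∀ v, L v = ptK (A' (base v)) (m v)) (hm : ∀ u, m (ptK 0 u) = D *ᵥ u) :
    L.det = A'.det * D.det := by
  rw [ContinuousLinearMap.det, ← LinearMap.det_toMatrix',
    ← Matrix.det_submatrix_equiv_self (finSumFinEquiv (m := b) (n := k))]
  have hblock : (LinearMap.toMatrix' (L : Cn (b + k) →ₗ[ℂ] Cn (b + k))).submatrix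
      finSumFinEquiv finSumFinEquiv =
      Matrix.fromBlocks (LinearMap.toMatrix' (A' : Cn b →ₗ[ℂ] Cn b)) 0
        (Matrix.of fun i j => m (Pi.single (Fin.castAdd k j) 1) i) D := by
    ext i j
    rcases i with i | i <;> rcases j with j | j
    · simp only [Matrix.submatrix_apply, LinearMap.toMatrix'_apply, ContinuousLinearMap.coe_coe,
        hL, Matrix.fromBlocks_apply₁₁, finSumFinEquiv_apply_left]
      rw [ecast_eq, base_ptK, ptK_castAdd]
    · simp only [Matrix.submatrix_apply, LinearMap.toMatrix'_apply, ContinuousLinearMap.coe_coe,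
        hL, Matrix.fromBlocks_apply₁₂, finSumFinEquiv_apply_left, finSumFinEquiv_apply_right]
      have h1 : base (Pi.single (Fin.natAdd b j) (1 : ℂ) : Cn (b + k)) = 0 := base_ef j
      rw [h1, map_zero, ptK_castAdd]
      rfl
    · simp only [Matrix.submatrix_apply, LinearMap.toMatrix'_apply, ContinuousLinearMap.coe_coe,
        hL, Matrix.fromBlocks_apply₂₁, finSumFinEquiv_apply_left, finSumFinEquiv_apply_right,
        Matrix.of_apply]
      rw [ptK_natAdd]
    · simp only [Matrix.submatrix_apply, LinearMap.toMatrix'_apply, ContinuousLinearMap.coe_coe,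
        hL, Matrix.fromBlocks_apply₂₂, finSumFinEquiv_apply_right]
      have h1 : (Pi.single (Fin.natAdd b j) (1 : ℂ) : Cn (b + k)) = ptK 0 (Pi.single j 1) :=
        ef_eq j
      rw [h1, ptK_natAdd, hm]
      simp
  rw [hblock, Matrix.det_fromBlocks_zero₁₂, LinearMap.det_toMatrix']

/-- The fibre component of `t.map`. -/
noncomputable def apF (t : TriK b k) (x : Cn (b + k)) : Cn k := t.ap (base x) (fib x)

theorem map_eq (t : TriK b k) (x : Cn (b + k)) : t.map x = ptK (t.g (base x)) (apF t x) := rfl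

theorem map_ptK (t : TriK b k) (z : Cn b) (w : Cn k) :
    t.map (ptK z w) = ptK (t.g z) (t.ap z w) := by
  rw [TriK.map, base_ptK, fib_ptK]

theorem apF_diff {U : Set (Cn b)} (hU : IsOpen U) {t : TriK b k} (ht : t.HolOn U)
    {x : Cn (b + k)} (hx : base x ∈ U) : DifferentiableAt ℂ (apF t) x := by
  rw [differentiableAt_pi]
  intro i
  have hb : DifferentiableAt ℂ (fun x : Cn (b + k) => base x) x := (bsL b k).differentiableAt
  have hf : ∀ j, DifferentiableAt ℂ (fun x : Cn (b + k) => fib x j) x := fun j =>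
    (differentiableAt_pi.1 ((fbL b k).differentiableAt (x := x))) j
  have hA : ∀ j, DifferentiableAt ℂ (fun x : Cn (b + k) => t.A (base x) i j) x := fun j =>
    DifferentiableAt.comp x (((ht.2.1 i j) _ hx).differentiableAt (hU.mem_nhds hx)) hb
  have hβ : DifferentiableAt ℂ (fun x : Cn (b + k) => t.β (base x) i) x :=
    (differentiableAt_pi.1 (DifferentiableAt.comp x
      ((ht.2.2 _ hx).differentiableAt (hU.mem_nhds hx)) hb)) i
  show DifferentiableAt ℂ (fun x : Cn (b + k) => ∑ j, t.A (base x) i j * fib x j +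
    t.β (base x) i) x
  refine DifferentiableAt.add ?_ hβ
  exact DifferentiableAt.fun_sum fun j _ => (hA j).mul (hf j)

theorem map_deriv {U : Set (Cn b)} (hU : IsOpen U) {t : TriK b k} (ht : t.HolOn U)
    {x : Cn (b + k)} (hx : base x ∈ U) :
    HasFDerivAt t.map ((ptL b k).comp (((fderiv ℂ t.g (base x)).comp (bsL b k)).prod
      (fderiv ℂ (apF t) x))) x := by
  have hb : HasFDerivAt (fun x : Cn (b + k) => base x) (bsL b k) x := (bsL b k).hasFDerivAt
  have hg : HasFDerivAt t.g (fderiv ℂ t.g (base x)) (base x) :=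
    ((ht.1 _ hx).differentiableAt (hU.mem_nhds hx)).hasFDerivAt
  have h1 : HasFDerivAt (fun x : Cn (b + k) => t.g (base x))
      ((fderiv ℂ t.g (base x)).comp (bsL b k)) x := hg.comp x hb
  have h2 := (apF_diff hU ht hx).hasFDerivAt
  exact (ptL b k).hasFDerivAt.comp x (h1.prodMk h2)

theorem map_fderiv {U : Set (Cn b)} (hU : IsOpen U) {t : TriK b k} (ht : t.HolOn U)
    {x : Cn (b + k)} (hx : base x ∈ U) (v : Cn (b + k)) :
    fderiv ℂ t.map x v = ptK (fderiv ℂ t.g (base x) (base v)) (fderiv ℂ (apF t) x v) := by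
  rw [(map_deriv hU ht hx).fderiv]
  rfl

theorem apF_fib {U : Set (Cn b)} (hU : IsOpen U) {t : TriK b k} (ht : t.HolOn U)
    {x : Cn (b + k)} (hx : base x ∈ U) (u : Cn k) :
    fderiv ℂ (apF t) x (ptK 0 u) = t.A (base x) *ᵥ u := by
  have h1 : HasFDerivAt (fun w : Cn k => ptK (base x) w)
      ((ptL b k).comp (ContinuousLinearMap.inr ℂ (Cn b) (Cn k))) (fib x) := by
    have h2 : (fun w : Cn k => ptK (base x) w) = fun w => ptK (base x) 0 +
        ((ptL b k).comp (ContinuousLinearMap.inr ℂ (Cn b) (Cn k))) w := by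
      funext w
      show ptK (base x) w = ptK (base x) 0 + ptK 0 w
      rw [← ptK_add, add_zero, zero_add]
    rw [h2]
    exact ((ptL b k).comp (ContinuousLinearMap.inr ℂ (Cn b) (Cn k))).hasFDerivAt.const_add _
  have h3 : HasFDerivAt (apF t) (fderiv ℂ (apF t) x) (ptK (base x) (fib x)) := by
    rw [ptK_base_fib]
    exact (apF_diff hU ht hx).hasFDerivAt
  have h4 := h3.comp (fib x) h1
  have h5 : (apF t ∘ fun w : Cn k => ptK (base x) w) = fun w =>
      (Matrix.mulVecLin (t.A (base x))).toContinuousLinearMap w + t.β (base x) := by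
    funext w
    show t.ap (base (ptK (base x) w)) (fib (ptK (base x) w)) = _
    rw [base_ptK, fib_ptK]
    rfl
  rw [h5] at h4
  have h6 : HasFDerivAt (fun w => (Matrix.mulVecLin (t.A (base x))).toContinuousLinearMap w +
      t.β (base x)) (Matrix.mulVecLin (t.A (base x))).toContinuousLinearMap (fib x) :=
    (Matrix.mulVecLin (t.A (base x))).toContinuousLinearMap.hasFDerivAt.add_const _
  have h7 := h4.unique h6
  have h8 := congrArg (fun L => L u) h7
  exact h8

theorem map_fib {U : Set (Cn b)} (hU : IsOpen U) {t : TriK b k} (ht : t.HolOn U)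
    {x : Cn (b + k)} (hx : base x ∈ U) (u : Cn k) :
    fderiv ℂ t.map x (ptK 0 u) = ptK 0 (t.A (base x) *ᵥ u) := by
  rw [map_fderiv hU ht hx, apF_fib hU ht hx, base_ptK, map_zero]

theorem map_det {U : Set (Cn b)} (hU : IsOpen U) {t : TriK b k} (ht : t.HolOn U)
    {x : Cn (b + k)} (hx : base x ∈ U) :
    (fderiv ℂ t.map x).det = (fderiv ℂ t.g (base x)).det * (t.A (base x)).det :=
  det_blockK _ _ (fderiv ℂ (apF t) x) _ (fun v => map_fderiv hU ht hx v)
    fun u => apF_fib hU ht hx u

theorem map_cont {U : Set (Cn b)} (hU : IsOpen U) {t : TriK b k} (ht : t.HolOn U)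
    {x : Cn (b + k)} (hx : base x ∈ U) : ContinuousAt t.map x := (map_deriv hU ht hx).continuousAt

/-! ### Matrices of holomorphic functions -/

section

variable {E : Type*} [NormedAddCommGroup E] [NormedSpace ℂ E] {V : Set E}
  {A : E → Matrix (Fin k) (Fin k) ℂ}

theorem det_diff (hA : ∀ i j, DifferentiableOn ℂ (fun z => A z i j) V) :
    DifferentiableOn ℂ (fun z => (A z).det) V := by
  simp only [Matrix.det_apply']
  refine DifferentiableOn.fun_sum fun σ _ => ?_
  refine DifferentiableOn.const_mul ?_ _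
  have h : ∀ s : Finset (Fin k), DifferentiableOn ℂ (fun z => ∏ i ∈ s, A z (σ i) i) V := by
    intro s
    classical
    induction s using Finset.induction_on with
    | empty => simp only [Finset.prod_empty]; exact differentiableOn_const _
    | insert a s ha ih =>
      simp only [Finset.prod_insert ha]
      exact (hA _ _).mul ih
  exact h Finset.univ

theorem adj_diff (hA : ∀ i j, DifferentiableOn ℂ (fun z => A z i j) V) (i j : Fin k) :
    DifferentiableOn ℂ (fun z => (A z).adjugate i j) V := by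
  simp only [Matrix.adjugate_apply]
  apply det_diff
  intro a c
  by_cases h : a = j
  · subst h
    simp only [Matrix.updateRow_self]
    exact differentiableOn_const _
  · simp only [Matrix.updateRow_ne h]
    exact hA a c

theorem inv_diff (hA : ∀ i j, DifferentiableOn ℂ (fun z => A z i j) V)
    (hd : ∀ z ∈ V, (A z).det ≠ 0) (i j : Fin k) :
    DifferentiableOn ℂ (fun z => (A z)⁻¹ i j) V := by
  have h1 : ∀ z, (A z)⁻¹ i j = ((A z).det)⁻¹ * (A z).adjugate i j := by
    intro z
    rw [Matrix.inv_def, Matrix.smul_apply, Ring.inverse_eq_inv', smul_eq_mul]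
  simp only [h1]
  exact ((det_diff hA).inv hd).mul (adj_diff hA i j)

theorem mulVec_diff {m n : Type*} [Fintype n] [Fintype m] {A : E → Matrix m n ℂ} {v : E → n → ℂ}
    (hA : ∀ i j, DifferentiableOn ℂ (fun z => A z i j) V) (hv : DifferentiableOn ℂ v V) :
    DifferentiableOn ℂ (fun z => A z *ᵥ v z) V := by
  rw [differentiableOn_pi]
  intro i
  show DifferentiableOn ℂ (fun z => ∑ j, A z i j * v z j) V
  exact DifferentiableOn.fun_sum fun j _ => (hA i j).mul (differentiableOn_pi.1 hv j)

theorem mul_diff {l m n : Type*} [Fintype n] {A : E → Matrix l n ℂ}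
    {B : E → Matrix n m ℂ}
    (hA : ∀ i j, DifferentiableOn ℂ (fun z => A z i j) V)
    (hB : ∀ i j, DifferentiableOn ℂ (fun z => B z i j) V) (i : l) (j : m) :
    DifferentiableOn ℂ (fun z => (A z * B z) i j) V := by
  simp only [Matrix.mul_apply]
  exact DifferentiableOn.fun_sum fun q _ => (hA i q).mul (hB q j)

end

theorem hermi_fib (M : Matrix (Fin (b + k)) (Fin (b + k)) ℂ) (u w : Cn k) :
    hermi M (ptK 0 u) (ptK 0 w) = hermi (fbl M) u w := by
  unfold hermi
  rw [Fin.sum_univ_add]
  simp only [Fin.sum_univ_add, ptK_castAdd, ptK_natAdd, Pi.zero_apply, mul_zero, zero_mul,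
    map_zero, Finset.sum_const_zero, zero_add]
  rfl

end Pool.Agent.Helper35.RK
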