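import Pool.Agent.Helper35.RK.TriB

/-! # Packet RK-BPK: bounded pairs, corank `k` -/

open Complex Metric Set Filter Topology MeasureTheory
open scoped ContDiff ComplexConjugate ComplexOrder Manifold Matrix

namespace Pool.Agent.Helper35.RK

open Pool.Agent.Helper95.Lin Pool.Agent.Helper16.Abund Pool.Agent.Helper92.Orb
open Pool.Agent.Helper10.SP Pool.Agent.Helper95.RK

universe u v

/-! ## Compact boxes -/

theorem continuous_ptK {b k : ℕ} : Continuous (fun p : Cn b × Cn k => ptK p.1 p.2) :=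
  (ptL b k).continuous

theorem continuous_fib {b k : ℕ} : Continuous (fib : Cn (b + k) → Cn k) := (fbL b k).continuous

theorem continuous_base {b k : ℕ} : Continuous (base : Cn (b + k) → Cn b) := (bsL b k).continuous

/-- The compact set of the points over the closed balls of radius `r` with last coordinate at most
`W`. -/
def box {b N : ℕ} (k : ℕ) (c : Fin N → Cn b) (r W : ℝ) : Set (Cn (b + k)) :=
  {x | base x ∈ ⋃ i, closedBall (c i) r ∧ ‖fib x‖ ≤ W}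

theorem isCompact_box {b N : ℕ} (k : ℕ) (c : Fin N → Cn b) (r W : ℝ) :
    IsCompact (box k c r W) := by
  have h : box k c r W = (fun p : Cn b × Cn k => ptK p.1 p.2) ''
      ((⋃ i, closedBall (c i) r) ×ˢ closedBall (0 : Cn k) W) := by
    ext x
    constructor
    · rintro ⟨h1, h2⟩
      exact ⟨(base x, fib x), ⟨h1, by simpa using h2⟩, ptK_base_fib x⟩
    · rintro ⟨⟨z, w⟩, ⟨h1, h2⟩, rfl⟩
      refine ⟨?_, ?_⟩
      · simp only [base_ptK]; exact h1
      · simp only [fib_ptK]; simpa using h2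
  rw [h]
  exact ((isCompact_iUnion fun i => isCompact_closedBall (c i) r).prod
    (isCompact_closedBall 0 W)).image continuous_ptK

theorem isOpen_Bd {b N : ℕ} (c : Fin N → Cn b) (r : ℝ) : IsOpen (Bd c r) :=
  isOpen_iUnion fun _ => isOpen_ball

theorem closed_sub_Bd {b N : ℕ} (c : Fin N → Cn b) {r s : ℝ} (h : r < s) :
    (⋃ i, closedBall (c i) r) ⊆ Bd c s :=
  iUnion_mono fun _ => closedBall_subset_ball h

theorem Bd_sub_closed {b N : ℕ} (c : Fin N → Cn b) (r : ℝ) :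
    Bd c r ⊆ ⋃ i, closedBall (c i) r :=
  iUnion_mono fun _ => ball_subset_closedBall

/-! ## Local injectivity and restriction -/

section

variable {b k N : ℕ} {G : Type u} {M : Type v} [Group G] [MulAction G M]
  [TopologicalSpace M] [T2Space M] [ChartedSpace (Fin (b + k) → ℂ) M]
  [IsManifold 𝓘(ℂ, Fin (b + k) → ℂ) ω M] {h : M → Matrix (Fin (b + k)) (Fin (b + k)) ℂ}
  {q : M → Matrix (Fin (b + k)) (Fin (b + k)) ℂ} {v : M → ℝ}

theorem Par_continuousOn {n : ℕ} {M : Type*} [TopologicalSpace M] [ChartedSpace (Fin n → ℂ) M]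
    {ψ : Cn n → M} {V : Set (Cn n)} (hψ : Par n ψ V) : ContinuousOn ψ V :=
  hψ.1.2.continuousOn

theorem locInj (hPARB : S_PARBK.{u, v}) (hd : DataK b k G M h v) {V : Set (Cn (b + k))}
    {ψ : Cn (b + k) → M} (hψ : Par (b + k) ψ V) {y : Cn (b + k)} (hy : y ∈ V) :
    ∃ U ∈ 𝓝 y, U ⊆ V ∧ InjOn ψ U := by
  obtain ⟨τ, U, W, hU, hW, hyU, hyW, hUV, hWV, _, _, _, _, _, hτ⟩ :=
    (hPARB hd).2.2.1 V V ψ ψ hψ hψ (1 : G) y hy y hy (one_smul G _)
  refine ⟨U ∩ W, inter_mem (hU.mem_nhds hyU) (hW.mem_nhds hyW), fun x hx => hUV hx.1, ?_⟩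
  intro x hx x' hx' hxx
  have h1 := (hτ x hx.1 x hx.2).1 (one_smul G _)
  have h2 := (hτ x hx.1 x' hx'.2).1 (by rw [one_smul]; exact hxx)
  rw [h1, h2]

omit [T2Space M] [IsManifold 𝓘(ℂ, Fin (b + k) → ℂ) ω M] [TopologicalSpace M]
  [ChartedSpace (Fin (b + k) → ℂ) M] in
theorem PMapGK.mono {D : Set (Cn b)} {R : G → Cn (b + k) → Cn (b + k) → Prop} {γ : G}
    {U U' : Set (Cn b)} {t : TriK b k} (ht : PMapGK D R γ U t) (hU' : IsOpen U') (hs : U' ⊆ U) :
    PMapGK D R γ U' t := by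
  obtain ⟨_, h2, ⟨h3, h4, h5⟩, h6, h7⟩ := ht
  exact ⟨hU', hs.trans h2, ⟨h3.mono hs, fun i j => (h4 i j).mono hs, h5.mono hs⟩, fun z hz => h6 z (hs hz),
    fun z hz => h7 z (hs hz)⟩

/-- The map of the pseudogroup on points. -/
theorem PMapGK.map {c : Fin N → Cn b} {R : ℝ} {E : Cn (b + k) → M} {γ : G} {U : Set (Cn b)}
    {t : TriK b k} (ht : PMapGK (Bd c R) (RelK c R E) γ U t) {x : Cn (b + k)} (hx : base x ∈ U) :
    γ • E x = E (t.map x) := by
  have := (ht.2.2.2.2 (base x) hx (fib x)).2.2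
  rwa [ptK_base_fib] at this

/-- Bounded pairs for a fixed group element. -/
theorem bp_one (hPARB : S_PARBK.{u, v}) (hLOCP : S_LOCPK.{u, v}) (hd : DataK b k G M h v)
    (hfl : FlatFol b k G M q v) (c : Fin N → Cn b) (E : Cn (b + k) → M) (Φ : Cn b → ℝ)
    (Hf : Cn b → Matrix (Fin k) (Fin k) ℂ) (hL : LMapK G v q c 5 E Φ Hf) (W : ℝ) (γ : G) : ∃ δ > 0, ∃ C : ℝ, ∀ (x y : Cn (b + k)),
    RelK c 5 E γ x y → base x ∈ Bd c 3 → base y ∈ Bd c 3 → ‖fib x‖ ≤ W → ‖fib y‖ ≤ W →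
    ∃ t : TriK b k, PMapGK (Bd c 5) (RelK c 5 E) γ (ball (base x) δ) t ∧
      MapsTo t.g (ball (base x) δ) (Bd c 4) ∧ (∀ z ∈ ball (base x) δ, ‖t.β z‖ ≤ C) ∧
      y = t.map x := by
  by_contra hcon
  push Not at hcon
  -- sequences
  have hseq : ∀ n : ℕ, ∃ x y : Cn (b + k), RelK c 5 E γ x y ∧ base x ∈ Bd c 3 ∧ base y ∈ Bd c 3 ∧
      ‖fib x‖ ≤ W ∧ ‖fib y‖ ≤ W ∧ ∀ t : TriK b k,
      PMapGK (Bd c 5) (RelK c 5 E) γ (ball (base x) (1 / ((n : ℝ) + 1))) t →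
      MapsTo t.g (ball (base x) (1 / ((n : ℝ) + 1))) (Bd c 4) →
      (∀ z ∈ ball (base x) (1 / ((n : ℝ) + 1)), ‖t.β z‖ ≤ n) →
      y ≠ t.map x := by
    intro n
    exact hcon _ (by positivity) n
  choose X Y hR hX3 hY3 hXW hYW hno using hseq
  have hXbox : ∀ n, (X n, Y n) ∈ box k c 3 W ×ˢ box k c 3 W := fun n =>
    ⟨⟨Bd_sub_closed c 3 (hX3 n), hXW n⟩, ⟨Bd_sub_closed c 3 (hY3 n), hYW n⟩⟩
  obtain ⟨⟨x, y⟩, hxy, φ, hφ, hlim⟩ :=
    ((isCompact_box k c 3 W).prod (isCompact_box k c 3 W)).tendsto_subseq hXbox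
  have hlx : Tendsto (fun n => X (φ n)) atTop (𝓝 x) := (continuous_fst.tendsto _).comp hlim
  have hly : Tendsto (fun n => Y (φ n)) atTop (𝓝 y) := (continuous_snd.tendsto _).comp hlim
  have hb5 : (⋃ i, closedBall (c i) (3 : ℝ)) ⊆ Bd c 5 := closed_sub_Bd c (by norm_num)
  have hx5 : x ∈ tubeK k (Bd c 5) := hb5 hxy.1.1
  have hy5 : y ∈ tubeK k (Bd c 5) := hb5 hxy.2.1
  have hTo : IsOpen (tubeK k (Bd c (5 : ℝ)) : Set (Cn (b + k))) := isOpen_tubeK (isOpen_Bd c 5)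
  have hEc : ContinuousOn E (tubeK k (Bd c 5)) := Par_continuousOn hL.par
  have hEx : Tendsto (fun n => E (X (φ n))) atTop (𝓝 (E x)) :=
    (hEc.continuousAt (hTo.mem_nhds hx5)).tendsto.comp hlx
  have hEy : Tendsto (fun n => E (Y (φ n))) atTop (𝓝 (E y)) :=
    (hEc.continuousAt (hTo.mem_nhds hy5)).tendsto.comp hly
  have hγ : Continuous (fun p : M => γ • p) := (hPARB hd).2.2.2.2 γ
  have hxyE : γ • E x = E y := by
    refine tendsto_nhds_unique ((hγ.tendsto _).comp hEx) ?_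
    refine hEy.congr fun n => ?_
    exact ((hR (φ n)).2.2).symm
  obtain ⟨ρ, hρ, t, ht, hyt⟩ := hLOCP hd hfl c 5 E Φ Hf hL γ x y ⟨hx5, hy5, hxyE⟩
  -- neighbourhoods
  have htg : ContinuousOn t.g (ball (base x) ρ) := ht.2.2.1.1.continuousOn
  have htβ : ContinuousOn t.β (ball (base x) ρ) := ht.2.2.1.2.2.continuousOn
  have hbx : ball (base x) ρ ∈ 𝓝 (base x) := ball_mem_nhds _ hρ
  have hgx : t.g (base x) ∈ Bd c 4 := by
    have h1 : base y = t.g (base x) := by rw [hyt, map_eq, base_ptK]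
    rw [← h1]
    exact closed_sub_Bd c (by norm_num) hxy.2.1
  have h1 : ∀ᶠ z in 𝓝 (base x), t.g z ∈ Bd c 4 :=
    (htg.continuousAt hbx).eventually_mem ((isOpen_Bd c 4).mem_nhds hgx)
  have h2 : ∀ᶠ z in 𝓝 (base x), ‖t.β z‖ < ‖t.β (base x)‖ + 1 :=
    ((htβ.continuousAt hbx).norm).eventually_lt_const (by linarith)
  obtain ⟨r, hr, hrb⟩ := Metric.eventually_nhds_iff_ball.1 (h1.and (h2.and hbx))
  obtain ⟨U, hU, hU5, hinj⟩ := locInj hPARB hd hL.par hy5
  -- the images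
  set T : Cn (b + k) → Cn (b + k) := t.map with hT
  have hbase : Tendsto (fun n => base (X (φ n))) atTop (𝓝 (base x)) :=
    (continuous_base.tendsto _).comp hlx
  have hTlim : Tendsto (fun n => T (X (φ n))) atTop (𝓝 y) := by
    rw [hyt]
    exact (map_cont ht.1 ht.2.2.1 (mem_ball_self hρ)).tendsto.comp hlx
  have hev : ∀ᶠ n : ℕ in atTop, T (X (φ n)) ∈ U ∧ Y (φ n) ∈ U ∧
      base (X (φ n)) ∈ ball (base x) (r / 2) ∧ 1 / ((φ n : ℝ) + 1) < r / 2 ∧
      ‖t.β (base x)‖ + 1 < (φ n : ℝ) := by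
    have e4 : Tendsto (fun n => ((φ n : ℕ) : ℝ)) atTop atTop :=
      tendsto_natCast_atTop_atTop.comp hφ.tendsto_atTop
    have e5 : Tendsto (fun n => 1 / ((φ n : ℝ) + 1)) atTop (𝓝 0) :=
      tendsto_one_div_add_atTop_nhds_zero_nat.comp hφ.tendsto_atTop
    filter_upwards [hTlim.eventually_mem hU, hly.eventually_mem hU,
      hbase.eventually_mem (ball_mem_nhds _ (half_pos hr)), e5.eventually_lt_const (half_pos hr),
      e4.eventually_gt_atTop (‖t.β (base x)‖ + 1)] with n a1 a2 a3 a4 a5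
    exact ⟨a1, a2, a3, a4, a5⟩
  obtain ⟨n, a1, a2, a3, a4, a5⟩ := hev.exists
  have hsub : ball (base (X (φ n))) (1 / ((φ n : ℝ) + 1)) ⊆ ball (base x) r := by
    intro z hz
    rw [mem_ball] at hz a3 ⊢
    have := dist_triangle z (base (X (φ n))) (base x)
    linarith
  have hbX : base (X (φ n)) ∈ ball (base x) ρ := by
    have : base (X (φ n)) ∈ ball (base x) r := by
      rw [mem_ball] at a3 ⊢
      linarith
    exact (hrb _ this).2.2
  refine hno (φ n) t ?_ ?_ ?_ ?_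
  · exact PMapGK.mono ht isOpen_ball fun z hz => (hrb z (hsub hz)).2.2
  · exact fun z hz => (hrb z (hsub hz)).1
  · exact fun z hz => ((hrb z (hsub hz)).2.1.trans a5).le
  · have h3 := PMapGK.map ht hbX
    have h4 := (hR (φ n)).2.2
    exact hinj a2 a1 (h4.symm.trans h3)

end

/-- BPK. -/
theorem bpk (hPARB : S_PARBK.{u, v}) (hLOCP : S_LOCPK.{u, v}) : S_BPK.{u, v} := by
  intro b k N G M _ _ _ _ _ _ h q v hd hfl c E Φ Hf hL W
  choose d hd0 C hdC using bp_one hPARB hLOCP hd hfl c E Φ Hf hL W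
  -- finitely many group elements
  have hb5 : box k c 3 W ⊆ tubeK k (Bd c 5) := fun x hx => closed_sub_Bd c (by norm_num) hx.1
  have hK : IsCompact (E '' box k c 3 W) :=
    (isCompact_box k c 3 W).image_of_continuousOn ((Par_continuousOn hL.par).mono hb5)
  have hF := hd.proper _ hK
  have hfin : ∀ F : Finset G, ∃ δ > 0, ∃ C' : ℝ, ∀ γ ∈ F, δ ≤ d γ ∧ C γ ≤ C' := by
    classical
    intro F
    induction F using Finset.induction_on with
    | empty => exact ⟨1, one_pos, 0, by simp⟩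
    | insert γ F _ ih =>
      obtain ⟨δ, hδ, C', hC'⟩ := ih
      refine ⟨min δ (d γ), lt_min hδ (hd0 γ), max C' (C γ), ?_⟩
      intro γ' hγ'
      rcases Finset.mem_insert.1 hγ' with rfl | h1
      · exact ⟨min_le_right _ _, le_max_right _ _⟩
      · exact ⟨(min_le_left _ _).trans (hC' _ h1).1, (hC' _ h1).2.trans (le_max_left _ _)⟩
  obtain ⟨δ, hδ, C', hC'⟩ := hfin hF.toFinset
  refine ⟨δ, hδ, C', fun γ x y hR hx hy hxW hyW => ?_⟩
  have hγ : γ ∈ hF.toFinset := by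
    rw [Set.Finite.mem_toFinset]
    refine ⟨E x, mem_image_of_mem _ ⟨Bd_sub_closed c 3 hx, hxW⟩, ?_⟩
    rw [hR.2.2]
    exact mem_image_of_mem _ ⟨Bd_sub_closed c 3 hy, hyW⟩
  obtain ⟨h1, h2⟩ := hC' γ hγ
  obtain ⟨t, ht, hg, hβ, hyt⟩ := hdC γ x y hR hx hy hxW hyW
  have hs : ball (base x) δ ⊆ ball (base x) (d γ) := ball_subset_ball h1
  exact ⟨t, PMapGK.mono ht isOpen_ball hs, hg.mono_left hs, fun z hz => (hβ z (hs hz)).trans h2, hyt⟩

end Pool.Agent.Helper35.RK
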