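import Pool.Agent.Helper10.RK.GoalsK
import Pool.Agent.Helper35.SP.ETA
import Pool.Agent.Helper35.RK.TriB

/-! # RK, packet ETAK: the singular weights -/

open Complex Metric Set Filter Topology MeasureTheory
open scoped ContDiff ComplexConjugate ComplexOrder Manifold Matrix

namespace Pool.Agent.Helper35.RK

open Pool.Agent.Helper95.Lin Pool.Agent.Helper16.Abund Pool.Agent.Helper92.Orb
open Pool.Agent.Helper10.SP Pool.Agent.Helper95.RK Pool.Agent.Helper36.RK Pool.Agent.Helper10.RK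
open Pool.Agent.Helper35.SP (hess_mul lev_mul lev_const' lev_sum bl bl_apply bl_self bl_le bl_nonneg
  norm_sq_le_bl Lg Lg_pos Lg_smooth Lg_lev Lg_le le_Lg core_lev)

/-- The data with the determinant of the linear part. -/
noncomputable def trd {b k : ℕ} (t : TriK b k) : Tri b := ⟨t.g, fun z => (t.A z).det, fun _ => 0⟩

theorem etak (hLMF : S_LMF) (hBSUM : S_BSUMK) : S_ETAK := by
  intro b k N c R P Φ Hf C hF n s hG i z₀ r₀ r₁ χ hχ r₂ hr₂
  classical
  have wch := Pool.Agent.Helper59.SP.wch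
  have hC := hF.Cge
  have hR : 16 ≤ R := by have := hF.Rge; linarith
  have hb : (0 : ℝ) < b := by exact_mod_cast hF.posb
  have hBdR : ∀ r, r ≤ R → Bd c r ⊆ Bd c R := fun r hr =>
    iUnion_mono fun j => ball_subset_ball hr
  have hbR : ∀ j r, r ≤ R → ball (c j) r ⊆ Bd c R := fun j r hr =>
    (ball_subset_ball hr).trans (subset_iUnion (fun j => ball (c j) R) j)
  have hopR : IsOpen (Bd c R) := isOpen_iUnion fun j => isOpen_ball
  have hop2 : IsOpen (Bd c 2) := isOpen_iUnion fun j => isOpen_ball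
  -- the class of the identity
  have hone : BigK c P i TriK.one := by
    refine ⟨hF.one _ isOpen_ball (hbR i 4 (by linarith)), c i, mem_ball_self (by norm_num), ?_⟩
    exact mem_iUnion.2 ⟨i, mem_ball_self (by norm_num)⟩
  obtain ⟨k₀, hk₀⟩ := hG.cov i _ hone
  have hz4 : z₀ ∈ ball (c i) 4 := ball_subset_ball (by norm_num) hχ.mem
  have hk₁ : (s i k₀).g z₀ = z₀ := (hk₀ z₀ hz4).symm
  set T : Finset (Fin (n i)) := Finset.univ.filter fun q => (s i q).g z₀ = z₀ with hT
  have hTpos : 0 < T.card := Finset.card_pos.2 ⟨k₀, by simp [hT, hk₁]⟩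
  have hh : (0 : ℝ) < T.card := by exact_mod_cast hTpos
  set a : ℝ := b / T.card with ha
  have ha0 : 0 ≤ a := by positivity
  have hTa : (T.card : ℝ) * a = b := by
    rw [ha]
    field_simp
  set F : ℝ → Cn b → ℝ := fun ε y => χ y * (a * Lg z₀ ε y) with hFdef
  have hFs : ∀ ε, 0 < ε → ContDiff ℝ ∞ (F ε) := fun ε hε =>
    hχ.smooth.mul (contDiff_const.mul (Lg_smooth hε))
  have hr1 := hχ.pos
  have hr0 : 0 < r₀ := hr1.trans hχ.lt
  have hsubR : closedBall z₀ r₀ ⊆ Bd c R := hχ.sub.trans (hbR i 2 (by linarith))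
  obtain ⟨K₃, hK₃, hcore⟩ := core_lev hLMF hopR hF.smooth hF.pos hχ.smooth hr1 hr0.le hsubR
    hχ.small hχ.range hχ.supp hχ.one ha0
  have hF0 : ∀ ε, 0 < ε → ε ≤ 1 / 2 → ∀ y, F ε y ≤ 0 := by
    intro ε hε hε' y
    by_cases hy : y ∈ closedBall z₀ r₀
    · exact mul_nonpos_of_nonneg_of_nonpos (hχ.range y).1
        (mul_nonpos_of_nonneg_of_nonpos ha0 (Lg_le hε hε' hχ.small hy))
    · simp only [hFdef]
      rw [hχ.supp y hy, zero_mul]
  have hΦ0 : ∀ y ∈ Bd c R, ∀ v, 0 ≤ lev Φ y v := by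
    intro y hy v
    by_cases hv : v = 0
    · subst hv
      unfold lev hess
      simp
    · exact (hF.pos y hy v hv).le
  set η : ℝ → Cn b → ℝ := fun ε z => (bsumK c n s 0 (fun y => ((F ε y : ℝ) : ℂ)) z).re with hη
  have hηe : ∀ ε, ∀ j, ∀ z ∈ ball (c j) 2, η ε z = ∑ q, F ε ((s j q).g z) := by
    intro ε j z hz
    simp only [hη, bsumK, pow_zero, mul_one]
    rw [Finset.sum_eq_single j]
    · rw [indicator_of_mem hz, ← Complex.ofReal_sum, Complex.ofReal_re]
    · intro l _ hl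
      refine indicator_of_notMem (fun h => ?_) _
      have h1 := hF.sep l j hl
      have h2 : ‖c l - c j‖ ≤ ‖z - c l‖ + ‖z - c j‖ := by
        have : c l - c j = (z - c j) - (z - c l) := by abel
        rw [this, add_comm]
        exact norm_sub_le _ _
      rw [mem_ball, dist_eq_norm] at h hz
      linarith
    · intro h
      exact absurd (Finset.mem_univ j) h
  have hJM : JMK c P 0 := ⟨fun _ _ _ _ _ _ _ _ => by simp, fun _ _ _ _ _ _ => by simp⟩
  have hbs : ∀ ε, 0 < ε → ContDiffOn ℝ ∞ (bsumK c n s 0 (fun y => ((F ε y : ℝ) : ℂ))) (Bd c 2) ∧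
      ∀ U t, PBK c P U t → ∀ z ∈ U, bsumK c n s 0 (fun y => ((F ε y : ℝ) : ℂ)) z =
        bsumK c n s 0 (fun y => ((F ε y : ℝ) : ℂ)) (t.g z) * JtK t z ^ 0 := by
    intro ε hε
    refine hBSUM c R P Φ Hf C hF n s hG 0 hJM _ (closedBall z₀ r₀)
      (Complex.ofRealCLM.contDiff.comp (hFs ε hε)) (isCompact_closedBall _ _)
      (hχ.sub.trans (subset_iUnion (fun j => ball (c j) 2) i)) fun z hz => ?_
    simp only [hFdef]
    rw [hχ.supp z hz, zero_mul, Complex.ofReal_zero]
  set n' : ℝ := ∑ j, (n j : ℝ) with hn'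
  have hn0 : 0 ≤ n' := Finset.sum_nonneg fun j _ => Nat.cast_nonneg _
  have hnj : ∀ j, (n j : ℝ) ≤ n' := fun j =>
    Finset.single_le_sum (f := fun j => (n j : ℝ)) (fun j _ => Nat.cast_nonneg _)
      (Finset.mem_univ j)
  set L₂ : ℝ := a * |Real.log (r₂ ^ 2)| with hL₂
  have hL₂0 : 0 ≤ L₂ := by positivity
  set K : ℝ := 1 + n' * (K₃ + L₂) + b * C ^ 2 with hK
  have hK1 : 1 ≤ K := by
    have : 0 ≤ n' * (K₃ + L₂) := by positivity
    have : 0 ≤ b * C ^ 2 := by positivity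
    rw [hK]
    linarith
  have hK2 : n' * K₃ ≤ K := by
    have h1 : n' * K₃ ≤ n' * (K₃ + L₂) := by
      gcongr
      linarith
    have : 0 ≤ b * C ^ 2 := by positivity
    rw [hK]
    linarith
  have hK3 : n' * L₂ ≤ K := by
    have h1 : n' * L₂ ≤ n' * (K₃ + L₂) := by
      gcongr
      linarith
    have : 0 ≤ b * C ^ 2 := by positivity
    rw [hK]
    linarith
  have hK4 : b * C ^ 2 ≤ K := by
    have : 0 ≤ n' * (K₃ + L₂) := by positivity
    rw [hK]
    linarith
  have hC0 : 0 < C := by linarith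
  have hsub3 : ball z₀ (min (r₁ / C) r₀) ⊆ ball (c i) 2 :=
    ((ball_subset_ball (min_le_right _ _)).trans ball_subset_closedBall).trans hχ.sub
  refine ⟨η, K, min (r₁ / C) r₀, by linarith, lt_min (by positivity) hr0, hsub3, ?_⟩
  intro ε hε hε'
  have hhol : ∀ j q, DifferentiableOn ℂ (s j q).g (ball (c j) 4) := fun j q =>
    (hF.holo _ _ (hG.big j q).1).2.2.1.1
  have hmaps : ∀ j q, MapsTo (s j q).g (ball (c j) 4) (Bd c R) := fun j q z hz =>
    ((hF.holo _ _ (hG.big j q).1).2.2.2 z hz).1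
  refine ⟨?_, ?_, ?_, ?_, ?_, ?_⟩
  · exact Complex.reCLM.contDiff.comp_contDiffOn (hbs ε hε).1
  · intro U t ht z hz
    have h1 := (hbs ε hε).2 U t ht z hz
    rw [pow_zero, mul_one] at h1
    simp only [hη]
    rw [h1]
  · intro z hz
    obtain ⟨j, hj⟩ := mem_iUnion.1 hz
    rw [hηe ε j z hj]
    exact Finset.sum_nonpos fun q _ => hF0 ε hε hε' _
  · intro z hz e
    obtain ⟨j, hj⟩ := mem_iUnion.1 hz
    have hj4 : z ∈ ball (c j) 4 := ball_subset_ball (by norm_num) hj
    have he : η ε =ᶠ[𝓝 z] fun z => ∑ q, F ε ((s j q).g z) := by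
      filter_upwards [isOpen_ball.mem_nhds hj] with x hx
      exact hηe ε j x hx
    have hsm : ∀ q, ContDiffOn ℝ ∞ (fun z => F ε ((s j q).g z)) (ball (c j) 4) := fun q =>
      (hFs ε hε).comp_contDiffOn (holo_contDiffOn_real isOpen_ball (hhol j q))
    rw [Pool.Agent.Helper86.SP.lev_congr he, lev_sum Finset.univ isOpen_ball
      (fun q _ => hsm q) hj4]
    have hterm : ∀ q, -(K₃ * lev Φ z e) ≤ lev (fun z => F ε ((s j q).g z)) z e := by
      intro q
      have h1 := ((wch.1 univ (ball (c j) 4) isOpen_univ isOpen_ball (s j q).g (hhol j q)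
        (mapsTo_univ _ _)).2 (F ε) (hFs ε hε).contDiffOn z hj4).1 e
      have h2 := Pool.Agent.Helper86.SP.lev_id wch hopR isOpen_ball hF.smooth
        (t := trd (s j q)) (Ψ := Φ) ⟨hhol j q, det_diff (hF.holo _ _ (hG.big j q).1).2.2.1.2.1,
          differentiableOn_const _⟩
        (hmaps j q) (fun x hx => ⟨((hF.holo _ _ (hG.big j q).1).2.2.2 x hx).2,
          (hF.pot _ _ (hG.big j q).1 x hx).1, (hF.pot _ _ (hG.big j q).1 x hx).2⟩) hj4 e
      have h3 := hcore ε hε hε' ((s j q).g z) (hmaps j q hj4) (fderiv ℂ (s j q).g z e)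
      rw [h2]
      refine h3.trans (le_of_eq ?_)
      exact h1.symm
    have hs : ∑ _k : Fin (n j), -(K₃ * lev Φ z e) ≤
        ∑ q, lev (fun z => F ε ((s j q).g z)) z e := Finset.sum_le_sum fun q _ => hterm q
    refine le_trans ?_ hs
    rw [Finset.sum_const, Finset.card_univ, Fintype.card_fin, nsmul_eq_mul]
    have h4 := hΦ0 z (hbR j 4 (by linarith) hj4) e
    have h5 : (n j : ℝ) * (K₃ * lev Φ z e) ≤ K * lev Φ z e := by
      rw [← mul_assoc]
      refine mul_le_mul_of_nonneg_right ?_ h4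
      exact (mul_le_mul_of_nonneg_right (hnj j) hK₃).trans hK2
    linarith
  · intro j z hz hk
    rw [hηe ε j z hz]
    have hterm : ∀ q, -L₂ ≤ F ε ((s j q).g z) := by
      intro q
      by_cases hy : (s j q).g z ∈ closedBall z₀ r₀
      · have h1 := le_Lg (ε := ε) hr₂ (hk q)
        have h2 := Lg_le hε hε' hχ.small hy
        have h3 : -|Real.log (r₂ ^ 2)| ≤ Lg z₀ ε ((s j q).g z) :=
          (neg_abs_le _).trans h1
        have h4 := hχ.range ((s j q).g z)
        have h5 : -L₂ ≤ a * Lg z₀ ε ((s j q).g z) := by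
          rw [hL₂]
          have := mul_le_mul_of_nonneg_left h3 ha0
          linarith
        have h6 : a * Lg z₀ ε ((s j q).g z) ≤ 0 := mul_nonpos_of_nonneg_of_nonpos ha0 h2
        simp only [hFdef]
        nlinarith
      · simp only [hFdef]
        rw [hχ.supp _ hy, zero_mul]
        linarith
    have hs : ∑ _k : Fin (n j), -L₂ ≤ ∑ q, F ε ((s j q).g z) :=
      Finset.sum_le_sum fun q _ => hterm q
    rw [Finset.sum_const, Finset.card_univ, Fintype.card_fin, nsmul_eq_mul] at hs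
    have h5 : (n j : ℝ) * L₂ ≤ n' * L₂ := mul_le_mul_of_nonneg_right (hnj j) hL₂0
    linarith
  · intro z hz
    rw [hηe ε i z (hsub3 hz)]
    have hz1 : ‖z - z₀‖ < r₁ / C := by
      have := lt_of_lt_of_le (mem_ball.1 hz) (min_le_left _ _)
      rwa [dist_eq_norm] at this
    have hsum : ∑ q, F ε ((s i q).g z) ≤ ∑ q ∈ T, F ε ((s i q).g z) := by
      rw [← Finset.sum_filter_add_sum_filter_not Finset.univ (fun q => (s i q).g z₀ = z₀)]
      have : ∑ q ∈ Finset.univ.filter (fun q => ¬ (s i q).g z₀ = z₀), F ε ((s i q).g z) ≤ 0 :=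
        Finset.sum_nonpos fun q _ => hF0 ε hε hε' _
      linarith
    refine hsum.trans ?_
    have hterm : ∀ q ∈ T, F ε ((s i q).g z) ≤ a * Real.log (K * (‖z - z₀‖ ^ 2 + ε ^ 2)) := by
      intro q hk
      have hk' : (s i q).g z₀ = z₀ := (Finset.mem_filter.1 hk).2
      have h1 := hF.lip i (s i q) (hG.big i q) z (ball_subset_ball (by norm_num) (hsub3 hz)) z₀ hz4
      rw [hk'] at h1
      have h2 : ‖(s i q).g z - z₀‖ < r₁ := by
        refine h1.trans_lt ?_
        calc C * ‖z - z₀‖ < C * (r₁ / C) := by gcongr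
          _ = r₁ := by field_simp
      simp only [hFdef]
      rw [hχ.one _ (by rwa [mem_ball, dist_eq_norm]), one_mul]
      refine mul_le_mul_of_nonneg_left ?_ ha0
      refine Real.log_le_log (Lg_pos hε _) ?_
      have h3 := bl_le ((s i q).g z - z₀)
      have h4 : (b : ℝ) * ‖(s i q).g z - z₀‖ ^ 2 ≤ b * (C * ‖z - z₀‖) ^ 2 := by gcongr
      have h5 : b * (C * ‖z - z₀‖) ^ 2 ≤ K * ‖z - z₀‖ ^ 2 := by
        have : b * (C * ‖z - z₀‖) ^ 2 = (b * C ^ 2) * ‖z - z₀‖ ^ 2 := by ring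
        rw [this]
        gcongr
      have h6 : ε ^ 2 ≤ K * ε ^ 2 := by
        have : 0 ≤ ε ^ 2 := by positivity
        nlinarith
      linarith
    calc ∑ q ∈ T, F ε ((s i q).g z) ≤ ∑ _k ∈ T, a * Real.log (K * (‖z - z₀‖ ^ 2 + ε ^ 2)) :=
          Finset.sum_le_sum hterm
      _ = b * Real.log (K * (‖z - z₀‖ ^ 2 + ε ^ 2)) := by
          rw [Finset.sum_const, nsmul_eq_mul, ← mul_assoc, hTa]

end Pool.Agent.Helper35.RK
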