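import Pool.Agent.Helper45.RK.GoalsJ
import Pool.Agent.Helper53.SP.RescA
import Pool.Agent.Helper27.Lin.Montel

/-! # RK, packet GFINK: finitely many base maps (corank `k`) -/

open Complex Metric Set Filter Topology
open scoped ContDiff ComplexConjugate Matrix ComplexOrder

namespace Pool.Agent.Helper35.RK

open Pool.Agent.Helper95.Lin Pool.Agent.Helper10.SP Pool.Agent.Helper95.RK Pool.Agent.Helper45.SP
  Pool.Agent.Helper45.RK
open Pool.Agent.Helper53.SP (eqOn_ball)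

namespace Gfink

variable {b k N : ℕ} {c : Fin N → Cn b} {R : ℝ} {P : Set (Cn b) → TriK b k → Prop} {Φ : Cn b → ℝ}
  {Hf : Cn b → Matrix (Fin k) (Fin k) ℂ} {C : ℝ}

/-- Finite nets of base maps. -/
theorem net (hA : AFolK c R P Φ Hf C) (i : Fin N) (η : ℝ) (hη : 0 < η) :
    ∃ (n : ℕ) (s : Fin n → TriK b k), (∀ l, BigK c P i (s l)) ∧
      ∀ t, BigK c P i t → ∃ l, ∀ z ∈ ball (c i) 3, ‖t.g z - (s l).g z‖ ≤ η := by
  classical
  by_contra hcon
  push Not at hcon
  -- the greedy sequence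
  have hstep : ∀ S : Finset (TriK b k), (∀ x ∈ S, BigK c P i x) → ∃ y, BigK c P i y ∧ ∀ x ∈ S,
      ¬ ∀ z ∈ ball (c i) 3, ‖y.g z - x.g z‖ ≤ η := by
    intro S hS
    obtain ⟨t, ht, hk⟩ := hcon S.card (fun l => (S.equivFin.symm l : TriK b k))
      (fun l => hS _ (S.equivFin.symm l).2)
    refine ⟨t, ht, fun x hx hclose => ?_⟩
    obtain ⟨z, hz, h⟩ := hk (S.equivFin ⟨x, hx⟩)
    have := hclose z hz
    simp only [Equiv.symm_apply_apply] at h
    exact absurd this (not_le.2 h)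
  obtain ⟨f, hfA, hfr⟩ := exists_seq_of_forall_finset_exists (fun t => BigK c P i t)
    (fun x y => ¬ ∀ z ∈ ball (c i) 3, ‖y.g z - x.g z‖ ≤ η) hstep
  have hholo := fun l => hA.holo _ _ (hfA l).1
  obtain ⟨B, hB⟩ := (Bornology.isBounded_iUnion.2
    (fun j : Fin N => (isBounded_ball : Bornology.IsBounded (ball (c j) R)))).exists_norm_le
  obtain ⟨φ, hφ, F, -, hF⟩ := _root_.Helper27.LinMontel.montel (ball (c i) 4) isOpen_ball
    (fun l => (f l).g) (fun l => (hholo l).2.2.1.1)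
    (fun K hK _ => ⟨B, fun l z hz => hB _ ((hholo l).2.2.2 z (hK hz)).1⟩)
  have hsub : closedBall (c i) 3 ⊆ ball (c i) 4 := closedBall_subset_ball (by norm_num)
  have h1 := hF (closedBall (c i) 3) hsub (isCompact_closedBall _ _) (η / 2) (by positivity)
  obtain ⟨K, hK⟩ := eventually_atTop.1 h1
  have hlt : φ K < φ (K + 1) := hφ (Nat.lt_succ_self K)
  apply hfr _ _ hlt
  intro z hz
  have hz' : z ∈ closedBall (c i) 3 := ball_subset_closedBall hz
  have a1 := hK K le_rfl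
  have b1 := hK (K + 1) (Nat.le_succ K)
  calc ‖(f (φ (K + 1))).g z - (f (φ K)).g z‖
      = ‖((f (φ (K + 1))).g z - F z) - ((f (φ K)).g z - F z)‖ := by
        rw [sub_sub_sub_cancel_right]
    _ ≤ ‖(f (φ (K + 1))).g z - F z‖ + ‖(f (φ K)).g z - F z‖ := norm_sub_le _ _
    _ ≤ η / 2 + η / 2 := add_le_add (b1 z hz') (a1 z hz')
    _ = η := by ring

/-- Inverses of the elements. -/
theorem inv_big (h : AFolK c R P Φ Hf C) {i j : Fin N} {s : TriK b k} (hs : BigK c P i s) {z₁ : Cn b}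
    (hz₁ : z₁ ∈ ball (c i) 2) (hj : s.g z₁ ∈ ball (c j) 2) :
    ∃ r, BigK c P j r ∧ (∀ z ∈ ball z₁ (2 / C), s.g z ∈ ball (c j) 4 ∧ r.g (s.g z) = z) ∧
      ∀ w ∈ ball (s.g z₁) (2 / C), r.g w ∈ ball (c i) 4 ∧ s.g (r.g w) = w := by
  have hC : 1 ≤ C := h.Cge
  have hC0 : 0 < C := by linarith
  have hr2 : 0 < 2 / C := by positivity
  have hr2' : 2 / C ≤ 2 := by
    rw [div_le_iff₀ hC0]
    linarith
  have h24 : ∀ (x : Cn b) (l : Fin N), x ∈ ball (c l) 2 → ball x (2 / C) ⊆ ball (c l) 4 := by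
    intro x l hx w hw
    rw [mem_ball] at hx hw ⊢
    linarith [dist_triangle w x (c l)]
  have h4 : z₁ ∈ ball (c i) 4 := ball_subset_ball (by norm_num) hz₁
  obtain ⟨r₀, U', U'', hr₀, hyU', hU''o, hzU'', hU''s, hmaps, heq⟩ := h.inv _ s hs.1 z₁ h4
  have hr₀z : r₀.g (s.g z₁) = z₁ := (heq z₁ hzU'').1
  obtain ⟨r, U₁, hr, hU₁o, hyU₁, hU₁s, hreq⟩ := h.ext j (s.g z₁) hj U' r₀ hr₀ hyU'
    (by rw [hr₀z]; exact mem_iUnion.2 ⟨i, hz₁⟩)
  have hrz : r.g (s.g z₁) = z₁ := by rw [(hreq _ hyU₁).1, hr₀z]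
  have hrB : BigK c P j r := ⟨hr, s.g z₁, hj, by rw [hrz]; exact mem_iUnion.2 ⟨i, hz₁⟩⟩
  have hsh := (h.holo _ _ hs.1).2.2.1.1
  have hrh := (h.holo _ _ hr).2.2.1.1
  have hscont : ContinuousAt s.g z₁ :=
    (hsh.continuousOn).continuousAt (isOpen_ball.mem_nhds h4)
  have hj4 : s.g z₁ ∈ ball (c j) 4 := ball_subset_ball (by norm_num) hj
  have hrcont : ContinuousAt r.g (s.g z₁) :=
    (hrh.continuousOn).continuousAt (isOpen_ball.mem_nhds hj4)
  have hmap1 : MapsTo s.g (ball z₁ (2 / C)) (ball (c j) 4) := by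
    intro z hz
    have h1 := h.lip i s hs z (h24 z₁ i hz₁ hz) z₁ h4
    rw [mem_ball, dist_eq_norm] at hz
    have h2 : C * ‖z - z₁‖ < 2 := by
      calc C * ‖z - z₁‖ < C * (2 / C) := mul_lt_mul_of_pos_left hz hC0
        _ = 2 := by field_simp
    rw [mem_ball, dist_eq_norm] at hj ⊢
    linarith [norm_sub_le_norm_sub_add_norm_sub (s.g z) (s.g z₁) (c j)]
  have hmap2 : MapsTo r.g (ball (s.g z₁) (2 / C)) (ball (c i) 4) := by
    intro w hw
    have h1 := h.lip j r hrB w (h24 _ j hj hw) (s.g z₁) hj4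
    rw [hrz] at h1
    rw [mem_ball, dist_eq_norm] at hw
    have h2 : C * ‖w - s.g z₁‖ < 2 := by
      calc C * ‖w - s.g z₁‖ < C * (2 / C) := mul_lt_mul_of_pos_left hw hC0
        _ = 2 := by field_simp
    rw [mem_ball, dist_eq_norm] at hz₁ ⊢
    linarith [norm_sub_le_norm_sub_add_norm_sub (r.g w) z₁ (c i)]
  -- the first composition
  have hev1 : ∀ᶠ z in 𝓝 z₁, r.g (s.g z) = z := by
    filter_upwards [hU''o.mem_nhds hzU'', hscont.eventually_mem (hU₁o.mem_nhds hyU₁)] with z hz1 hz2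
    rw [(hreq _ hz2).1]
    exact (heq z hz1).1
  have e1 : EqOn (fun z => r.g (s.g z)) (fun z => z) (ball z₁ (2 / C)) :=
    eqOn_ball (hrh.comp (hsh.mono (h24 z₁ i hz₁)) hmap1) differentiableOn_id (mem_ball_self hr2)
      hev1
  -- the second composition
  obtain ⟨s₂, W', W'', hs₂, hzW', hW''o, hyW'', hW''s, hmaps2, heq2⟩ := h.inv _ r hr (s.g z₁) hj4
  have hev2 : ∀ᶠ z in 𝓝 z₁, s₂.g z = s.g z := by
    filter_upwards [hev1, hscont.eventually_mem (hW''o.mem_nhds hyW'')] with z hz1 hz2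
    have h1 : s₂.g (r.g (s.g z)) = s.g z := (heq2 _ hz2).1
    rwa [hz1] at h1
  have hev3 : ∀ᶠ w in 𝓝 (s.g z₁), s.g (r.g w) = w := by
    have ht : Tendsto r.g (𝓝 (s.g z₁)) (𝓝 z₁) := by
      have := hrcont.tendsto
      rwa [hrz] at this
    filter_upwards [ht.eventually hev2, hW''o.mem_nhds hyW''] with w hw1 hw2
    rw [← hw1]
    exact (heq2 _ hw2).1
  have e2 : EqOn (fun w => s.g (r.g w)) (fun w => w) (ball (s.g z₁) (2 / C)) :=
    eqOn_ball (hsh.comp (hrh.mono (h24 _ j hj)) hmap2) differentiableOn_id (mem_ball_self hr2)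
      hev3
  exact ⟨r, hrB, fun z hz => ⟨hmap1 hz, e1 hz⟩, fun w hw => ⟨hmap2 hw, e2 hw⟩⟩

/-- Elements which are close have the same base map. -/
theorem close_eq (hLCONV : S_LCONV) (hPGK : S_PGK) (h : AFolK c R P Φ Hf C) (hdisc : DiscK c P)
    (i : Fin N) : ∃ η > 0, ∀ t s, BigK c P i t → BigK c P i s →
      (∀ z ∈ ball (c i) 3, ‖t.g z - s.g z‖ ≤ η) → ∀ z ∈ ball (c i) 4, t.g z = s.g z := by
  obtain ⟨ηD, hηD, hD⟩ := hdisc
  have hL := (hPGK c R P Φ Hf C h i).toLGrpK.lgrp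
  have hC : 1 ≤ C := h.Cge
  have hC0 : 0 < C := by linarith
  set δ : ℝ := 1 / (4 * C ^ 2) with hδ
  have hδ0 : 0 < δ := by positivity
  have hC2 : 1 ≤ C ^ 2 := one_le_pow₀ hC
  have hδ4 : δ ≤ 1 / 4 := by
    rw [hδ, div_le_div_iff₀ (by positivity) (by norm_num)]
    linarith
  have hCδ : C * (2 * δ) = 1 / (2 * C) := by
    rw [hδ]
    field_simp
    ring
  have h2δ : 2 * δ ≤ 2 / C := by
    have h1 : C * (2 * δ) ≤ 2 := by
      rw [hCδ, div_le_iff₀ (by positivity)]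
      linarith
    rw [le_div_iff₀ hC0]
    linarith
  -- the finite cover
  have hcp : IsCompact (closedBall (c i) 2) := isCompact_closedBall _ _
  obtain ⟨T, hTs, hTf, hTc⟩ := hcp.finite_cover_balls (half_pos hδ0)
  have hsubT : ∀ x ∈ T, ball x (δ / 2) ⊆ ball (c i) 4 := by
    intro x hx w hw
    have h1 := hTs hx
    rw [mem_closedBall] at h1
    rw [mem_ball] at hw ⊢
    linarith [dist_triangle w x (c i)]
  have hη : ∀ x : T, ∃ η > 0, ∀ t ∈ bs '' {t | BigK c P i t}, Near (x : Cn b) (δ / 2) t.g η →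
      Near (c i) 3 t.g ηD := fun x =>
    hLCONV hL x (δ / 2) (half_pos hδ0) (hsubT x x.2) 3 (by norm_num) ηD hηD
  choose ηx hηx hηx' using hη
  have hTne : T.Nonempty := by
    obtain ⟨x, hx, -⟩ := mem_iUnion₂.1 (hTc (mem_closedBall_self (by norm_num : (0 : ℝ) ≤ 2)))
    exact ⟨x, hx⟩
  have : Finite T := hTf
  have : Nonempty T := hTne.to_subtype
  obtain ⟨x₀, hx₀⟩ := Finite.exists_min ηx
  set η₁ := ηx x₀ with hη₁
  have hη₁0 : 0 < η₁ := hηx x₀
  set η : ℝ := min (min (1 / C) (δ / (2 * C))) (η₁ / C) with hηdef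
  have hη0 : 0 < η := by positivity
  have hηa : η ≤ 1 / C := (min_le_left _ _).trans (min_le_left _ _)
  have hηb : C * η ≤ δ / 2 := by
    have h1 : η ≤ δ / (2 * C) := (min_le_left _ _).trans (min_le_right _ _)
    calc C * η ≤ C * (δ / (2 * C)) := mul_le_mul_of_nonneg_left h1 hC0.le
      _ = δ / 2 := by field_simp
  have hηc : C * η ≤ η₁ := by
    have h1 : η ≤ η₁ / C := min_le_right _ _
    calc C * η ≤ C * (η₁ / C) := mul_le_mul_of_nonneg_left h1 hC0.le
      _ = η₁ := by field_simp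
  refine ⟨η, hη0, ?_⟩
  intro t s ht hs hts
  obtain ⟨z₁, hz₁, hz₁'⟩ := hs.2
  obtain ⟨j, hj⟩ := mem_iUnion.1 hz₁'
  obtain ⟨r, hrB, hrs, hsr⟩ := inv_big h hs hz₁ hj
  have hz14 : z₁ ∈ ball (c i) 4 := ball_subset_ball (by norm_num) hz₁
  -- the point a little inside
  set z' : Cn b := z₁ + (δ / 2 : ℝ) • (c i - z₁) with hz'
  have hd1 : ‖z' - z₁‖ < δ := by
    rw [hz', add_sub_cancel_left, norm_smul, Real.norm_of_nonneg (by positivity)]
    rw [mem_ball, dist_comm, dist_eq_norm] at hz₁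
    calc δ / 2 * ‖c i - z₁‖ < δ / 2 * 2 := mul_lt_mul_of_pos_left hz₁ (by positivity)
      _ = δ := by ring
  have hd2 : ‖z' - c i‖ ≤ 2 - δ := by
    have e : z' - c i = (1 - δ / 2 : ℝ) • (z₁ - c i) := by
      rw [hz']
      module
    rw [e, norm_smul, Real.norm_of_nonneg (by linarith)]
    rw [mem_ball, dist_eq_norm] at hz₁
    calc (1 - δ / 2) * ‖z₁ - c i‖ ≤ (1 - δ / 2) * 2 :=
          mul_le_mul_of_nonneg_left hz₁.le (by linarith)
      _ = 2 - δ := by ring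
  have hz'2 : z' ∈ ball (c i) 2 := by
    rw [mem_ball, dist_eq_norm]
    linarith
  -- the small ball
  have hW1 : ball z' δ ⊆ ball z₁ (2 * δ) := by
    intro z hz
    rw [mem_ball, dist_eq_norm] at hz ⊢
    linarith [norm_sub_le_norm_sub_add_norm_sub z z' z₁]
  have hW2 : ball z' δ ⊆ ball z₁ (2 / C) := hW1.trans (ball_subset_ball h2δ)
  have hW3 : ball z' δ ⊆ ball (c i) 3 := by
    intro z hz
    rw [mem_ball, dist_eq_norm] at hz ⊢
    linarith [norm_sub_le_norm_sub_add_norm_sub z z' (c i)]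
  have hW4 : ball z' δ ⊆ ball (c i) 4 := hW3.trans (ball_subset_ball (by norm_num))
  have hself : z' ∈ ball z' δ := mem_ball_self hδ0
  have hty : ∀ z ∈ ball z' δ, t.g z ∈ ball (s.g z₁) (2 / C) := by
    intro z hz
    have h1 := h.lip i s hs z (hW4 hz) z₁ hz14
    have h2 := hW1 hz
    rw [mem_ball, dist_eq_norm] at h2 ⊢
    have h3 : C * ‖z - z₁‖ < 1 / (2 * C) := by
      rw [← hCδ]
      exact mul_lt_mul_of_pos_left h2 hC0
    have h4 := hts z (hW3 hz)
    have h5 : 1 / (2 * C) + 1 / C < 2 / C := by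
      rw [← sub_pos]
      have : 2 / C - (1 / (2 * C) + 1 / C) = 1 / (2 * C) := by
        field_simp
        ring
      rw [this]
      positivity
    linarith [norm_sub_le_norm_sub_add_norm_sub (t.g z) (s.g z) (s.g z₁)]
  have hy4 : ball (s.g z₁) (2 / C) ⊆ ball (c j) 4 := by
    intro w hw
    have hr2' : 2 / C ≤ 2 := by
      rw [div_le_iff₀ hC0]
      linarith
    rw [mem_ball] at hw hj ⊢
    linarith [dist_triangle w (s.g z₁) (c j)]
  have ht4 : MapsTo t.g (ball z' δ) (ball (c j) 4) := fun z hz => hy4 (hty z hz)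
  have hdist : ∀ z ∈ ball z' δ, ‖r.g (t.g z) - z‖ ≤ C * η := by
    intro z hz
    have h1 := h.lip j r hrB (t.g z) (ht4 hz) (s.g z) (hrs z (hW2 hz)).1
    rw [(hrs z (hW2 hz)).2] at h1
    exact h1.trans (mul_le_mul_of_nonneg_left (hts z (hW3 hz)) hC0.le)
  have hcomp : P (ball z' δ) (r.comp t) := h.comp _ _ _ r t hrB.1 ht.1 isOpen_ball hW4 ht4
  have hmem : (r.comp t).g z' ∈ Bd c 2 := by
    refine mem_iUnion.2 ⟨i, ?_⟩
    change r.g (t.g z') ∈ ball (c i) 2
    have h1 := hdist z' hself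
    rw [mem_ball, dist_eq_norm]
    linarith [norm_sub_le_norm_sub_add_norm_sub (r.g (t.g z')) z' (c i)]
  obtain ⟨u, U', hu, hU'o, hzU', hU's, hueq⟩ := h.ext i z' hz'2 _ _ hcomp hself hmem
  have huB : BigK c P i u := ⟨hu, z', hz'2, by rw [(hueq z' hzU').1]; exact hmem⟩
  have hth := (h.holo _ _ ht.1).2.2.1.1
  have hsh := (h.holo _ _ hs.1).2.2.1.1
  have hrh := (h.holo _ _ hrB.1).2.2.1.1
  have huh := (h.holo _ _ hu).2.2.1.1
  have eu : EqOn u.g (fun z => r.g (t.g z)) (ball z' δ) :=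
    eqOn_ball (huh.mono hW4) (hrh.comp (hth.mono hW4) ht4) hself
      (Filter.eventually_of_mem (hU'o.mem_nhds hzU') fun z hz => (hueq z hz).1)
  -- the cover
  obtain ⟨x, hx, hzx⟩ := mem_iUnion₂.1 (hTc (ball_subset_closedBall hz'2))
  have hnear : Near x (δ / 2) u.g (ηx ⟨x, hx⟩) := by
    intro z hz
    have hz2 : z ∈ ball z' δ := by
      rw [mem_ball] at hz hzx ⊢
      rw [dist_comm] at hzx
      linarith [dist_triangle z x z']
    rw [eu hz2]
    exact (hdist z hz2).trans (hηc.trans (hx₀ ⟨x, hx⟩))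
  have hid := hD i u hu (hηx' ⟨x, hx⟩ (bs u) ⟨u, huB, rfl⟩ hnear)
  have hev : t.g =ᶠ[𝓝 z'] s.g := by
    refine Filter.eventually_of_mem (isOpen_ball.mem_nhds hself) fun z hz => ?_
    have h1 := (hsr _ (hty z hz)).2
    have h2 : r.g (t.g z) = z := by
      exact (eu hz).symm.trans (hid z (hW4 hz))
    rw [h2] at h1
    exact h1.symm
  exact eqOn_ball hth hsh (hW4 hself) hev

end Gfink

/-- GFINK. -/
theorem gfink (hLCONV : S_LCONV) (hPGK : S_PGK) : S_GFINK := by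
  intro b k N c R P Φ Hf C h hdisc
  classical
  have key : ∀ i, ∃ (n : ℕ) (s : Fin n → TriK b k), (∀ l, BigK c P i (s l)) ∧
      (∀ t, BigK c P i t → ∃ l, ∀ z ∈ ball (c i) 4, t.g z = (s l).g z) ∧
      ∀ l m, (∀ z ∈ ball (c i) 4, (s l).g z = (s m).g z) → l = m := by
    intro i
    obtain ⟨η, hη, hcl⟩ := Gfink.close_eq hLCONV hPGK h hdisc i
    obtain ⟨n, s, hs, hnet⟩ := Gfink.net h i η hη
    let F : Fin n → Cn b → Cn b := fun l z => if z ∈ ball (c i) 4 then (s l).g z else 0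
    let S : Finset (Cn b → Cn b) := Finset.univ.image F
    have hpre : ∀ f : S, ∃ l, F l = f := by
      intro f
      obtain ⟨l, -, hl⟩ := Finset.mem_image.1 f.2
      exact ⟨l, hl⟩
    choose g hg using hpre
    refine ⟨S.card, fun l => s (g (S.equivFin.symm l)), fun l => hs _, ?_, ?_⟩
    · intro t ht
      obtain ⟨l, hl⟩ := hnet t ht
      have hl' := hcl t (s l) ht (hs l) fun z hz => hl z hz
      have hFl : F l ∈ S := Finset.mem_image_of_mem _ (Finset.mem_univ l)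
      refine ⟨S.equivFin ⟨F l, hFl⟩, fun z hz => ?_⟩
      change t.g z = (s (g (S.equivFin.symm (S.equivFin ⟨F l, hFl⟩)))).g z
      rw [Equiv.symm_apply_apply, hl' z hz]
      have h1 := congrFun (hg ⟨F l, hFl⟩) z
      simp only [F, if_pos hz] at h1
      exact h1.symm
    · intro l m hlm
      have h1 : F (g (S.equivFin.symm l)) = F (g (S.equivFin.symm m)) := by
        funext z
        by_cases hz : z ∈ ball (c i) 4
        · simp only [F, if_pos hz]
          exact hlm z hz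
        · simp only [F, if_neg hz]
      rw [hg, hg] at h1
      exact S.equivFin.symm.injective (Subtype.ext h1)
  choose n s hs using key
  exact ⟨n, s, fun i l => (hs i).1 l, fun i t ht => (hs i).2.1 t ht, fun i l m => (hs i).2.2 l m⟩

end Pool.Agent.Helper35.RK
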