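import Pool.Agent.Helper45.RK.GoalsG
import Pool.Agent.Helper95.RK.Basics
import Pool.Agent.Helper95.Lin.Basics
import Pool.Agent.Helper10.SP.WIRT
import Pool.Agent.Helper59.SP.WCH

/-! # RK, packet HFA1: the differential equation of the linear part of an isometry -/

open Complex Metric Set Filter Topology
open scoped ContDiff ComplexConjugate Matrix ComplexOrder

namespace Pool.Agent.Helper35.RK

open Pool.Agent.Helper95.Lin Pool.Agent.Helper10.SP Pool.Agent.Helper95.RK Pool.Agent.Helper45.SP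
  Pool.Agent.Helper45.RK

section wirt

variable {n : ℕ} {W : Set (Cn n)}

theorem cd_congr' {f g : Cn n → ℂ} {x : Cn n} (h : f =ᶠ[𝓝 x] g) (l : Fin n) :
    cd l f x = cd l g x := by
  simp only [cd, h.fderiv_eq]

theorem cd_zero' (l : Fin n) (x : Cn n) : cd l (fun _ => (0 : ℂ)) x = 0 := by
  simp [cd]

theorem cd_sum' (hW : IsOpen W) {ι : Type*} (s : Finset ι) {f : ι → Cn n → ℂ}
    (hf : ∀ i, ContDiffOn ℝ ∞ (f i) W) (l : Fin n) {x : Cn n} (hx : x ∈ W) :
    cd l (fun y => ∑ i ∈ s, f i y) x = ∑ i ∈ s, cd l (f i) x := by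
  classical
  induction s using Finset.induction_on with
  | empty => simp [cd_zero']
  | insert a s ha ih =>
    simp only [Finset.sum_insert ha]
    rw [((Pool.Agent.Helper10.SP.Wirt.wirt W hW (f a) (fun y => ∑ i ∈ s, f i y) (hf a)
      (ContDiffOn.sum fun i _ => hf i)).2.1 l x hx).1, ih]

theorem cd_mul' (hW : IsOpen W) {f g : Cn n → ℂ} (hf : ContDiffOn ℝ ∞ f W)
    (hg : ContDiffOn ℝ ∞ g W) (l : Fin n) {x : Cn n} (hx : x ∈ W) :
    cd l (fun y => f y * g y) x = f x * cd l g x + g x * cd l f x :=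
  ((Pool.Agent.Helper10.SP.Wirt.wirt W hW f g hf hg).2.2.1 l x hx).1

theorem smooth_conj' {E : Type*} [NormedAddCommGroup E] [NormedSpace ℝ E] {S : Set E} {f : E → ℂ}
    (hf : ContDiffOn ℝ ∞ f S) : ContDiffOn ℝ ∞ (fun x => conj (f x)) S :=
  Complex.conjCLE.contDiff.comp_contDiffOn hf

theorem cd_conj_holo (hW : IsOpen W) {f : Cn n → ℂ} (hf : DifferentiableOn ℂ f W) (l : Fin n)
    {x : Cn n} (hx : x ∈ W) : cd l (fun y => conj (f y)) x = 0 := by
  have hs := holo_contDiffOn_real hW hf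
  have h := Pool.Agent.Helper10.SP.Wirt.wirt W hW f f hs hs
  rw [(h.2.2.2.1 l x hx).1, h.2.2.2.2.2.2 hf l x hx, map_zero]

end wirt

theorem hfa1 : S_HFA1 := by
  intro b k W hW Hf hHf hpos U g A hU hUW hg hgW hA hdet hiso z hz a
  have hAs : ∀ i j, ContDiffOn ℝ ∞ (fun z => A z i j) U := fun i j =>
    holo_contDiffOn_real hU (hA i j)
  have hgs : ContDiffOn ℝ ∞ g U := holo_contDiffOn_real hU hg
  have hHg : ∀ i j, ContDiffOn ℝ ∞ (fun z => Hf (g z) i j) U := fun i j =>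
    (hHf i j).comp hgs hgW
  -- the identity in coordinates
  have key : ∀ y ∈ U, ∀ i j, ∑ p, ∑ q, Hf (g y) p q * A y p i * conj (A y q j) = Hf y i j := by
    intro y hy i j
    have h := hiso y hy (Pi.single i 1) (Pi.single j 1)
    unfold hermi at h
    simp only [Matrix.mulVec_single_one, Matrix.col_apply] at h
    rw [h]
    rw [Finset.sum_eq_single i, Finset.sum_eq_single j]
    · simp
    · intro q _ hq
      simp [Pi.single_eq_of_ne hq]
    · simp
    · intro p _ hp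
      simp [Pi.single_eq_of_ne hp]
    · simp
  -- notation
  obtain ⟨S, hS⟩ : ∃ S : Matrix (Fin k) (Fin k) ℂ, S = Matrix.of fun i j =>
    ∑ c, (fderiv ℂ g z (Pi.single a 1)) c * cd c (fun y => Hf y i j) (g z) := ⟨_, rfl⟩
  obtain ⟨D, hD⟩ : ∃ D : Matrix (Fin k) (Fin k) ℂ, D = Matrix.of fun i j =>
    cd a (fun y => A y i j) z := ⟨_, rfl⟩
  obtain ⟨Ab, hAb⟩ : ∃ Ab : Matrix (Fin k) (Fin k) ℂ, Ab = (A z).map conj := ⟨_, rfl⟩
  obtain ⟨E, hE⟩ : ∃ E : Matrix (Fin k) (Fin k) ℂ, E = Matrix.of fun i j =>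
    cd a (fun y => Hf y i j) z := ⟨_, rfl⟩
  have hchain : ∀ p q, cd a (fun y => Hf (g y) p q) z = S p q := by
    intro p q
    have h := ((Pool.Agent.Helper59.SP.wch.1 W U hW hU g hg hgW).1 (fun y => Hf y p q)
      (hHf p q) a z hz).1
    rw [hS]
    exact h
  have h1 : (A z)ᵀ * (Hf (g z) * Ab) = Hf z := by
    ext i j
    rw [← key z hz i j, ← Matrix.mul_assoc, Matrix.mul_apply]
    simp only [Matrix.mul_apply, Matrix.transpose_apply, Finset.sum_mul]
    rw [Finset.sum_comm]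
    refine Finset.sum_congr rfl fun p _ => Finset.sum_congr rfl fun q _ => ?_
    rw [hAb, Matrix.map_apply]
    ring
  have h2 : Dᵀ * (Hf (g z) * Ab) + (A z)ᵀ * (S * Ab) = E := by
    ext i j
    have hE' : E i j = cd a (fun y => Hf y i j) z := by rw [hE]; rfl
    have hev : (fun y => Hf y i j) =ᶠ[𝓝 z] fun y =>
        ∑ p, ∑ q, Hf (g y) p q * A y p i * conj (A y q j) := by
      filter_upwards [hU.mem_nhds hz] with y hy
      exact (key y hy i j).symm
    have hsm : ∀ p q, ContDiffOn ℝ ∞ (fun y => Hf (g y) p q * A y p i * conj (A y q j)) U :=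
      fun p q => ((hHg p q).mul (hAs p i)).mul (smooth_conj' (hAs q j))
    rw [hE', cd_congr' hev, cd_sum' hU _ (fun p => ContDiffOn.sum fun q _ => hsm p q) a hz]
    have hterm : ∀ p, cd a (fun y => ∑ q, Hf (g y) p q * A y p i * conj (A y q j)) z =
        ∑ q, (D p i * (Hf (g z) p q * Ab q j) + A z p i * (S p q * Ab q j)) := by
      intro p
      rw [cd_sum' hU _ (fun q => hsm p q) a hz]
      refine Finset.sum_congr rfl fun q _ => ?_
      rw [cd_mul' hU ((hHg p q).mul (hAs p i)) (smooth_conj' (hAs q j)) a hz,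
        cd_conj_holo hU (hA q j) a hz, cd_mul' hU (hHg p q) (hAs p i) a hz, hchain p q, hAb, hD]
      simp only [Matrix.map_apply, Matrix.of_apply]
      ring
    simp only [hterm]
    simp only [Matrix.add_apply, Matrix.mul_apply, Matrix.transpose_apply, Finset.mul_sum,
      Finset.sum_add_distrib]
  have hdetA : IsUnit (A z)ᵀ.det := by
    rw [Matrix.det_transpose]
    exact (hdet z hz).isUnit
  have hdetAb : IsUnit Ab.det := by
    rw [hAb]
    have h3 : ((A z).map conj).det = conj (A z).det := (RingHom.map_det (starRingEnd ℂ) _).symm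
    rw [h3]
    exact ((map_ne_zero _).2 (hdet z hz)).isUnit
  have hdetH : IsUnit (Hf (g z)).det := (hpos _ (hgW hz)).det_pos.ne'.isUnit
  have hdetHz : IsUnit (Hf z).det := (hpos _ (hUW hz)).det_pos.ne'.isUnit
  have hinv : Hf (g z) * Ab * ((Hf z)⁻¹ * (A z)ᵀ) = 1 := by
    have h3 : ((Hf z)⁻¹ * (A z)ᵀ) * (Hf (g z) * Ab) = 1 := by
      rw [Matrix.mul_assoc, h1, Matrix.nonsing_inv_mul _ hdetHz]
    exact mul_eq_one_comm.1 h3
  have hinv2 : Ab * ((Hf z)⁻¹ * (A z)ᵀ) = (Hf (g z))⁻¹ := by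
    have h3 : Hf (g z) * (Ab * ((Hf z)⁻¹ * (A z)ᵀ)) = 1 := by
      rw [← Matrix.mul_assoc]; exact hinv
    exact (Matrix.inv_eq_right_inv h3).symm
  have h3 : Dᵀ = E * ((Hf z)⁻¹ * (A z)ᵀ) - (A z)ᵀ * (S * (Hf (g z))⁻¹) := by
    rw [← h2, Matrix.add_mul, Matrix.mul_assoc Dᵀ, hinv, Matrix.mul_one, Matrix.mul_assoc (A z)ᵀ,
      Matrix.mul_assoc S, hinv2]
    abel
  have h4 : S * (Hf (g z))⁻¹ =
      ∑ c, (fderiv ℂ g z (Pi.single a 1)) c • GHf Hf c (g z) := by
    unfold GHf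
    have h5 : S = ∑ c, (fderiv ℂ g z (Pi.single a 1)) c •
        (Matrix.of fun i j => cd c (fun y => Hf y i j) (g z)) := by
      ext i j
      rw [hS, Matrix.sum_apply]
      rfl
    rw [h5, Finset.sum_mul]
    exact Finset.sum_congr rfl fun c _ => Matrix.smul_mul _ _ _
  rw [← hD, h3, h4, ← Matrix.mul_assoc]
  rw [hE]
  rfl

end Pool.Agent.Helper35.RK
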