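import Pool.Agent.Helper35.RK.TriB

/-!
# The pseudogroup axioms and the isometry relations, corank `k`
-/

open Complex Metric Set Filter Topology MeasureTheory
open scoped ContDiff ComplexConjugate ComplexOrder Manifold Matrix

namespace Pool.Agent.Helper35.RK

open Pool.Agent.Helper95.Lin Pool.Agent.Helper16.Abund Pool.Agent.Helper92.Orb
open Pool.Agent.Helper10.SP Pool.Agent.Helper95.RK
open Pool.Agent.Helper35.SP (idt)

universe u v

theorem ptK_inj {b k : ℕ} {z z' : Cn b} {w w' : Cn k} (h : ptK z w = ptK z' w') :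
    z = z' ∧ w = w' := by
  refine ⟨?_, ?_⟩
  · rw [← base_ptK z w, h, base_ptK]
  · rw [← fib_ptK z w, h, fib_ptK]

theorem cancel_mulVec {k : ℕ} {A : Matrix (Fin k) (Fin k) ℂ} (h : A.det ≠ 0) (v : Cn k) :
    A *ᵥ (A⁻¹ *ᵥ v) = v := by
  rw [Matrix.mulVec_mulVec, Matrix.mul_nonsing_inv A h.isUnit, Matrix.one_mulVec]

theorem cancel_mulVec' {k : ℕ} {A : Matrix (Fin k) (Fin k) ℂ} (h : A.det ≠ 0) (v : Cn k) :
    A⁻¹ *ᵥ (A *ᵥ v) = v := by
  rw [Matrix.mulVec_mulVec, Matrix.nonsing_inv_mul A h.isUnit, Matrix.one_mulVec]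

/-- PAXK. -/
theorem paxk (hPARB : S_PARBK.{u, v}) (hPMB : S_PMB.{u, v}) : S_PAXK.{u, v} := by
  intro b k N G M _ _ _ _ _ _ h q v hData hFol c R E Φ Hf hL
  obtain ⟨hP1, hP2, hP3, -, -⟩ := hPARB hData
  obtain ⟨hM1, hM2⟩ := hPMB hData q hFol.herm hFol.inv
  have hD : IsOpen (Bd c R) := isOpen_iUnion fun i => isOpen_ball
  have hTM : ∀ (γ : G) U t, PMapGK (Bd c R) (RelK (G := G) c R E) γ U t → ∀ x ∈ tubeK k U,
      t.map x ∈ tubeK k (Bd c R) ∧ x ∈ tubeK k (Bd c R) ∧ γ • E x = E (t.map x) := by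
    intro γ U t ht x hx
    have h1 := ht.2.2.2.2 (base x) hx (fib x)
    rw [ptK_base_fib] at h1
    exact ⟨h1.2.1, h1.1, h1.2.2⟩
  have hTU : ∀ {U : Set (Cn b)}, IsOpen U → IsOpen (tubeK k U) := fun hU => isOpen_tubeK hU
  -- local description by a biholomorphic map
  have hloc : ∀ (γ : G) (x x' : Cn (b + k)), x ∈ tubeK k (Bd c R) → x' ∈ tubeK k (Bd c R) →
      γ • E x = E x' → ∃ τ : Cn (b + k) → Cn (b + k), (fderiv ℂ τ x).det ≠ 0 ∧
        ∀ U t, PMapGK (Bd c R) (RelK (G := G) c R E) γ U t → x ∈ tubeK k U → t.map x = x' →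
          t.map =ᶠ[𝓝 x] τ := by
    intro γ x x' hx hx' hE
    obtain ⟨τ, U₁, W, hU₁, hW, hxU₁, hx'W, hU₁V, hWV, hτd, hτi, hτm, hτx, hτdet, hiff⟩ :=
      hP3 _ _ E E hL.par hL.par γ x hx x' hx' hE
    refine ⟨τ, hτdet x hxU₁, ?_⟩
    intro U t ht hxU hTx
    have hc : ContinuousAt t.map x := map_cont ht.1 ht.2.2.1 hxU
    have e1 : ∀ᶠ y in 𝓝 x, t.map y ∈ W := by
      apply hc
      rw [hTx]
      exact hW.mem_nhds hx'W
    have e2 : ∀ᶠ y in 𝓝 x, y ∈ tubeK k U := (hTU ht.1).mem_nhds hxU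
    have e3 : ∀ᶠ y in 𝓝 x, y ∈ U₁ := hU₁.mem_nhds hxU₁
    filter_upwards [e1, e2, e3] with y h1 h2 h3
    exact (hiff y h3 (t.map y) h1).1 (hTM γ U t ht y h2).2.2
  have hpot : ∀ γ U t, PMapGK (Bd c R) (RelK (G := G) c R E) γ U t → ∀ z ∈ U,
      PotRK Φ Φ Hf Hf t z := by
    intro γ U t ht z hz
    have hdet : ∀ x ∈ tubeK k U, (fderiv ℂ t.map x).det ≠ 0 := by
      intro x hx
      obtain ⟨h1, h2, h3⟩ := hTM γ U t ht x hx
      obtain ⟨τ, hτ, hτe⟩ := hloc γ x _ h2 h1 h3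
      rw [(hτe U t ht hx rfl).fderiv_eq]
      exact hτ
    have hTd : DifferentiableOn ℂ t.map (tubeK k U) := fun x hx =>
      (map_deriv ht.1 ht.2.2.1 hx).differentiableAt.differentiableWithinAt
    have h1 := hP1 (tubeK k (Bd c R)) (tubeK k U) E t.map hL.par (hTU ht.1) hTd
      (fun x hx => (hTM γ U t ht x hx).1) hdet
    have h2 := hP2 γ (tubeK k (Bd c R)) E hL.par
    have hx : ptK z (0 : Cn k) ∈ tubeK k U := by
      change base (ptK z (0 : Cn k)) ∈ U
      rw [base_ptK]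
      exact hz
    have hxU : base (ptK z (0 : Cn k)) ∈ U := hx
    have hxD : ptK z (0 : Cn k) ∈ tubeK k (Bd c R) := (hTM γ U t ht _ hx).2.1
    have he : (E ∘ t.map) =ᶠ[𝓝 (ptK z (0 : Cn k))] (fun x => γ • E x) := by
      filter_upwards [(hTU ht.1).mem_nhds hx] with y hy
      exact (hTM γ U t ht y hy).2.2.symm
    have hlp : lpot (b + k) v (E ∘ t.map) (ptK z (0 : Cn k)) =
        lpot (b + k) v (fun x => γ • E x) (ptK z (0 : Cn k)) := by
      unfold lpot jac
      rw [he.mfderiv_eq, he.eq_of_nhds]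
    have h3 := (h1.2 _ hx).2
    rw [hlp, (h2.2 _ hxD), hL.pot _ hxD, hL.pot _ (hTM γ U t ht _ hx).1, map_ptK, base_ptK,
      base_ptK, map_det ht.1 ht.2.2.1 hxU, base_ptK] at h3
    have hd := hdet _ hx
    rw [map_det ht.1 ht.2.2.1 hxU, base_ptK] at hd
    have hd1 := left_ne_zero_of_mul hd
    have hd2 := right_ne_zero_of_mul hd
    refine ⟨hd2, hd1, ?_, ?_⟩
    · rw [h3, norm_mul, mul_pow, Real.log_mul (by positivity) (by positivity), add_assoc]
    · intro u w
      obtain ⟨-, -, -, hMi⟩ := hM1 _ E hL.par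
      have g1 := hM2 (tubeK k (Bd c R)) (tubeK k U) E t.map hL.par (hTU ht.1) hTd
        (fun x hx => (hTM γ U t ht x hx).1) hdet _ hx (ptK 0 u) (ptK 0 w)
      have g2 : pm (b + k) q (E ∘ t.map) (ptK z (0 : Cn k)) =
          pm (b + k) q (fun y => γ • E y) (ptK z (0 : Cn k)) := by
        unfold pm dvec dmap
        rw [he.mfderiv_eq, he.eq_of_nhds]
      rw [g2, hMi γ _ hxD, map_fib ht.1 ht.2.2.1 hxU, map_fib ht.1 ht.2.2.1 hxU, hermi_fib,
        hermi_fib, map_ptK, base_ptK] at g1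
      have g3 := hL.leaf _ hxD
      have g4 := hL.leaf _ (hTM γ U t ht _ hx).1
      rw [map_ptK, base_ptK] at g4
      rw [base_ptK] at g3
      have g5 : fbl (pm (b + k) q E (ptK z (0 : Cn k))) = Hf z := g3
      have g6 : fbl (pm (b + k) q E (ptK (t.g z) (t.ap z 0))) = Hf (t.g z) := g4
      rw [g5, g6] at g1
      exact g1.symm
  refine ⟨hpot, ?_, ?_, ?_, ?_⟩
  · -- one
    intro U hU hUD
    refine ⟨hU, hUD, ⟨differentiableOn_id, fun i j => differentiableOn_const _,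
      differentiableOn_const _⟩, fun z hz => ⟨hUD hz, ?_⟩, fun z hz w => ?_⟩
    · show (1 : Matrix (Fin k) (Fin k) ℂ).det ≠ 0
      rw [Matrix.det_one]
      exact one_ne_zero
    have hmem : ptK z w ∈ tubeK k (Bd c R) := by
      change base (ptK z w) ∈ Bd c R
      rw [base_ptK]
      exact hUD hz
    have h1 : ptK ((TriK.one : TriK b k).g z) ((TriK.one : TriK b k).ap z w) = ptK z w := by
      simp [TriK.one, TriK.ap]
    rw [h1]
    exact ⟨hmem, hmem, one_smul _ _⟩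
  · -- comp
    intro γ γ' U U' U'' t s ht hs hU'' hsub hmaps
    have hsg := hs.2.2.1.1.mono hsub
    have htA : ∀ i j, DifferentiableOn ℂ (fun z => t.A (s.g z) i j) U'' := fun i j =>
      (ht.2.2.1.2.1 i j).comp hsg hmaps
    have hsA : ∀ i j, DifferentiableOn ℂ (fun z => s.A z i j) U'' := fun i j =>
      (hs.2.2.1.2.1 i j).mono hsub
    refine ⟨hU'', hsub.trans hs.2.1, ⟨?_, ?_, ?_⟩, ?_, ?_⟩
    · exact ht.2.2.1.1.comp hsg hmaps
    · exact fun i j => mul_diff htA hsA i j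
    · exact (mulVec_diff htA (hs.2.2.1.2.2.mono hsub)).add (ht.2.2.1.2.2.comp hsg hmaps)
    · intro z hz
      have h1 := hs.2.2.2.1 z (hsub hz)
      have h2 := ht.2.2.2.1 _ (hmaps hz)
      refine ⟨h2.1, ?_⟩
      show (t.A (s.g z) * s.A z).det ≠ 0
      rw [Matrix.det_mul]
      exact mul_ne_zero h2.2 h1.2
    · intro z hz w
      obtain ⟨h1, -, h2⟩ := hs.2.2.2.2 z (hsub hz) w
      obtain ⟨-, h3, h4⟩ := ht.2.2.2.2 _ (hmaps hz) (s.ap z w)
      have h5 : ptK ((t.comp s).g z) ((t.comp s).ap z w) =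
          ptK (t.g (s.g z)) (t.ap (s.g z) (s.ap z w)) := by
        simp only [TriK.comp, TriK.ap]
        congr 1
        rw [Matrix.mulVec_add, Matrix.mulVec_mulVec, add_assoc]
      rw [h5]
      refine ⟨h1, h3, ?_⟩
      rw [mul_smul, h2, h4]
  · -- inv
    intro γ U t ht z hz
    have hstr : ∀ y ∈ U, HasStrictFDerivAt t.g (fderiv ℂ t.g y) y := by
      intro y hy
      refine hasStrictFDerivAt_of_hasFDerivAt_of_continuousAt (f' := fderiv ℂ t.g) ?_ ?_
      · filter_upwards [ht.1.mem_nhds hy] with x hx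
        exact ((ht.2.2.1.1 x hx).differentiableAt (ht.1.mem_nhds hx)).hasFDerivAt
      · exact ((Pool.Agent.Helper8.Abund.differentiableOn_fderiv ht.1
          ht.2.2.1.1).continuousOn).continuousAt (ht.1.mem_nhds hy)
    have hdet : ∀ y ∈ U, (fderiv ℂ t.g y).det ≠ 0 := fun y hy => (hpot γ U t ht y hy).detg
    have hs0 : HasStrictFDerivAt t.g (((fderiv ℂ t.g z).toContinuousLinearEquivOfDetNeZero
        (hdet z hz) : Cn b ≃L[ℂ] Cn b) : Cn b →L[ℂ] Cn b) z := by
      rw [ContinuousLinearMap.coe_toContinuousLinearEquivOfDetNeZero]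
      exact hstr z hz
    set e := hs0.toOpenPartialHomeomorph t.g with he
    have heF : (e : Cn b → Cn b) = t.g := by
      rw [he, hs0.toOpenPartialHomeomorph_coe]
    have hzs : z ∈ e.source := hs0.mem_toOpenPartialHomeomorph_source
    have hgz : t.g z ∈ e.target := by
      have := e.map_source hzs
      rwa [heF] at this
    have hsz : e.symm (t.g z) = z := by
      have := e.left_inv hzs
      rwa [heF] at this
    have hU' : IsOpen (e.target ∩ e.symm ⁻¹' U) := e.isOpen_inter_preimage_symm ht.1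
    have hright : ∀ y ∈ e.target ∩ e.symm ⁻¹' U, t.g (e.symm y) = y := by
      intro y hy
      have := e.right_inv hy.1
      rwa [heF] at this
    have hsd : DifferentiableOn ℂ e.symm (e.target ∩ e.symm ⁻¹' U) := by
      intro y hy
      have h1 : HasFDerivAt e (((fderiv ℂ t.g (e.symm y)).toContinuousLinearEquivOfDetNeZero
          (hdet _ hy.2) : Cn b ≃L[ℂ] Cn b) : Cn b →L[ℂ] Cn b) (e.symm y) := by
        rw [ContinuousLinearMap.coe_toContinuousLinearEquivOfDetNeZero, heF]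
        exact (hstr _ hy.2).hasFDerivAt
      exact (e.hasFDerivAt_symm hy.1 h1).differentiableAt.differentiableWithinAt
    have hAe : ∀ i j, DifferentiableOn ℂ (fun y => t.A (e.symm y) i j)
        (e.target ∩ e.symm ⁻¹' U) := fun i j =>
      (ht.2.2.1.2.1 i j).comp hsd fun y hy => hy.2
    have hAd : ∀ y ∈ e.target ∩ e.symm ⁻¹' U, (t.A (e.symm y)).det ≠ 0 :=
      fun y hy => (ht.2.2.2.1 _ hy.2).2
    have hβe : DifferentiableOn ℂ (fun y => t.β (e.symm y)) (e.target ∩ e.symm ⁻¹' U) :=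
      ht.2.2.1.2.2.comp hsd fun y hy => hy.2
    refine ⟨⟨e.symm, fun y => (t.A (e.symm y))⁻¹,
      fun y => -((t.A (e.symm y))⁻¹ *ᵥ t.β (e.symm y))⟩,
      e.target ∩ e.symm ⁻¹' U, e.source ∩ U, ⟨hU', ?_, ⟨hsd, ?_, ?_⟩, ?_, ?_⟩, ⟨hgz, ?_⟩,
      e.open_source.inter ht.1, ⟨hzs, hz⟩, inter_subset_right, ?_, ?_⟩
    · intro y hy
      rw [← hright y hy]
      exact (ht.2.2.2.1 _ hy.2).1
    · exact fun i j => inv_diff hAe hAd i j
    · exact (mulVec_diff (fun i j => inv_diff hAe hAd i j) hβe).neg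
    · intro y hy
      refine ⟨ht.2.1 hy.2, ?_⟩
      show ((t.A (e.symm y))⁻¹).det ≠ 0
      rw [Matrix.det_nonsing_inv, Ring.inverse_eq_inv']
      exact inv_ne_zero (hAd y hy)
    · intro y hy w
      obtain ⟨h1, h2, h3⟩ := ht.2.2.2.2 (e.symm y) hy.2
        ((t.A (e.symm y))⁻¹ *ᵥ w + -((t.A (e.symm y))⁻¹ *ᵥ t.β (e.symm y)))
      have h4 : t.ap (e.symm y)
          ((t.A (e.symm y))⁻¹ *ᵥ w + -((t.A (e.symm y))⁻¹ *ᵥ t.β (e.symm y))) = w := by
        rw [TriK.ap, Matrix.mulVec_add, Matrix.mulVec_neg, cancel_mulVec (hAd y hy),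
          cancel_mulVec (hAd y hy)]
        abel
      rw [h4, hright y hy] at h2 h3
      refine ⟨h2, h1, ?_⟩
      show γ⁻¹ • E (ptK y w) = E (ptK (e.symm y) ((t.A (e.symm y))⁻¹ *ᵥ w +
        -((t.A (e.symm y))⁻¹ *ᵥ t.β (e.symm y))))
      rw [← h3, inv_smul_smul]
    · rw [mem_preimage, hsz]
      exact hz
    · intro y hy
      have h1 := e.map_source hy.1
      have h2 := e.left_inv hy.1
      rw [heF] at h1 h2
      refine ⟨h1, ?_⟩
      rw [mem_preimage, h2]
      exact hy.2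
    · intro y hy
      have h2 := e.left_inv hy.1
      rw [heF] at h2
      have ha := (ht.2.2.2.1 _ hy.2).2
      refine ⟨?_, ?_, ?_⟩
      · simp only [TriK.comp, TriK.one]
        rw [h2]
        rfl
      · simp only [TriK.comp, TriK.one]
        rw [h2, Matrix.nonsing_inv_mul _ ha.isUnit]
      · simp only [TriK.comp, TriK.one]
        rw [h2]
        abel
  · -- uniqueness
    intro γ z₀ r t s ht hs z hz w hg hw
    have hx : ptK z w ∈ tubeK k (ball z₀ r) := by
      change base (ptK z w) ∈ ball z₀ r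
      rw [base_ptK]
      exact hz
    obtain ⟨h1, h2, h3⟩ := hTM γ _ t ht _ hx
    obtain ⟨τ, -, hτ⟩ := hloc γ (ptK z w) _ h2 h1 h3
    have hts : s.map (ptK z w) = t.map (ptK z w) := by
      rw [map_ptK, map_ptK, hg, hw]
    have heq : t.map =ᶠ[𝓝 (ptK z w)] s.map := (hτ _ t ht hx rfl).trans (hτ _ s hs hx hts).symm
    have hptc : Continuous fun p : Cn b × Cn k => ptK p.1 p.2 := (ptL b k).continuous
    have hev : ∀ᶠ p : Cn b × Cn k in 𝓝 (z, w), t.map (ptK p.1 p.2) = s.map (ptK p.1 p.2) :=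
      (hptc.tendsto (z, w)).eventually heq
    have hkey : ∀ᶠ y in 𝓝 z, t.g y = s.g y ∧ t.A y = s.A y ∧ t.β y = s.β y := by
      filter_upwards [hev.curry_nhds] with y hy
      obtain ⟨ε, hε, hεB⟩ := Metric.eventually_nhds_iff.1 hy
      have e0 : ∀ w', dist w' w < ε → t.g y = s.g y ∧ t.ap y w' = s.ap y w' := by
        intro w' hw'
        have e1 := hεB hw'
        rw [map_ptK, map_ptK] at e1
        exact ptK_inj e1
      have f1 := e0 w (by rw [dist_self]; exact hε)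
      have f2 : ∀ u : Cn k, t.A y *ᵥ u = s.A y *ᵥ u := by
        intro u
        obtain ⟨δ, hδ, hδu⟩ : ∃ δ : ℝ, 0 < δ ∧ δ * ‖u‖ < ε := by
          refine ⟨ε / (2 * (‖u‖ + 1)), by positivity, ?_⟩
          have hu := norm_nonneg u
          rw [div_mul_eq_mul_div, div_lt_iff₀ (by positivity)]
          nlinarith
        have hmem : dist (w + (δ : ℂ) • u) w < ε := by
          rw [dist_eq_norm, add_sub_cancel_left, norm_smul, Complex.norm_real,
            Real.norm_of_nonneg hδ.le]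
          exact hδu
        have f3 := (e0 _ hmem).2
        have f4 := f1.2
        simp only [TriK.ap, Matrix.mulVec_add, Matrix.mulVec_smul] at f3 f4
        rw [add_right_comm (t.A y *ᵥ w), add_right_comm (s.A y *ᵥ w), f4] at f3
        exact smul_right_injective _ (Complex.ofReal_ne_zero.2 hδ.ne') (add_left_cancel f3)
      have f6 : t.A y = s.A y := by
        ext i j
        have := congrFun (f2 (Pi.single j 1)) i
        simpa using this
      refine ⟨f1.1, f6, ?_⟩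
      have f7 := f1.2
      simp only [TriK.ap, f6] at f7
      exact add_left_cancel f7
    intro y hy
    refine ⟨idt ht.2.2.1.1 hs.2.2.1.1 hz (hkey.mono fun _ h => h.1) hy, ?_,
      idt ht.2.2.1.2.2 hs.2.2.1.2.2 hz (hkey.mono fun _ h => h.2.2) hy⟩
    ext i j
    exact idt (ht.2.2.1.2.1 i j) (hs.2.2.1.2.1 i j) hz
      (hkey.mono fun _ h => congrFun (congrFun h.2.1 i) j) hy

end Pool.Agent.Helper35.RK
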