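import Pool.Agent.Helper36.RK.GoalsG
import Pool.Agent.Helper95.RK.Basics
import Pool.Agent.Helper95.Lin.Basics

/-! # RK, packet SMG: the Kähler form in real coordinates is smooth -/

open Complex Metric Set Filter Topology MeasureTheory Matrix
open scoped ContDiff ComplexConjugate ComplexOrder Manifold

namespace Pool.Agent.Helper35.RK

open Pool.Agent.Helper95.Lin Pool.Agent.Helper16.Abund Pool.Agent.Helper92.Orb Pool.Agent.Helper10.SP
  Pool.Agent.Helper95.RK Pool.Agent.Helper36.RK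

/-- The form `hermi` of smooth entries and smooth vectors is smooth. -/
theorem hermi_contDiffOn {E : Type*} [NormedAddCommGroup E] [NormedSpace ℝ E] {n : ℕ} {S : Set E}
    {A : E → Matrix (Fin n) (Fin n) ℂ} {u v : E → Cn n}
    (hA : ∀ i j, ContDiffOn ℝ ∞ (fun p => A p i j) S) (hu : ContDiffOn ℝ ∞ u S)
    (hv : ContDiffOn ℝ ∞ v S) : ContDiffOn ℝ ∞ (fun p => hermi (A p) (u p) (v p)) S := by
  have hu' : ∀ i, ContDiffOn ℝ ∞ (fun p => u p i) S := contDiffOn_pi.1 hu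
  have hv' : ∀ i, ContDiffOn ℝ ∞ (fun p => v p i) S := contDiffOn_pi.1 hv
  unfold hermi
  refine ContDiffOn.sum fun i _ => ContDiffOn.sum fun j _ => ?_
  refine ((hA i j).mul (hu' i)).mul ?_
  exact (conjCLE : ℂ ≃L[ℝ] ℂ).contDiff.comp_contDiffOn (hv' j)

/-- The Kähler form in real coordinates is smooth. -/
theorem smg : S_SMG := by
  intro b k N c R P Φ Hf C H hF hK lam hP j l e
  have hR : (3 : ℝ) ≤ R := by
    have h1 := hF.Rge
    have h2 := hF.Cge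
    linarith
  have hO : IsOpen (Bd c 3) := isOpen_iUnion fun i => isOpen_ball
  have hsub : Bd c 3 ⊆ Bd c R := iUnion_mono fun i => ball_subset_ball hR
  have hfst : ContDiffOn ℝ ∞ (fun p : Cn b × (Fin (2 * k) → ℝ) => p.1) (Bd c 3 ×ˢ univ) :=
    contDiff_fst.contDiffOn
  have hmaps : MapsTo (fun p : Cn b × (Fin (2 * k) → ℝ) => p.1) (Bd c 3 ×ˢ univ) (Bd c 3) :=
    fun p hp => hp.1
  have hlam : ∀ j, ContDiffOn ℝ ∞ (fun p : Cn b × (Fin (2 * k) → ℝ) => lam j p.1)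
      (Bd c 3 ×ˢ univ) := fun j => (holo_contDiffOn_real hO (hP.holo j)).comp hfst hmaps
  have hdl : ∀ j, DifferentiableOn ℂ (fun z => fderiv ℂ (lam j) z e) (Bd c 3) := fun j z hz =>
    ((ContinuousLinearMap.apply ℂ (Cn k) e).differentiableAt.comp_differentiableWithinAt z
      (holo_fderiv hO (hP.holo j) z hz))
  have hdlam : ∀ j, ContDiffOn ℝ ∞ (fun p : Cn b × (Fin (2 * k) → ℝ) => fderiv ℂ (lam j) p.1 e)
      (Bd c 3 ×ˢ univ) := fun j => (holo_contDiffOn_real hO (hdl j)).comp hfst hmaps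
  have hx : ∀ j, ContDiffOn ℝ ∞ (fun p : Cn b × (Fin (2 * k) → ℝ) => ((p.2 j : ℝ) : ℂ))
      (Bd c 3 ×ˢ univ) := fun j =>
    (ofRealCLM.contDiff.comp ((contDiff_apply ℝ ℝ j).comp contDiff_snd)).contDiffOn
  have hL : ContDiffOn ℝ ∞ (fun p : Cn b × (Fin (2 * k) → ℝ) => Lx lam p.1 p.2)
      (Bd c 3 ×ˢ univ) := by
    unfold Lx
    exact ContDiffOn.sum fun j _ => (hx j).smul (hlam j)
  have hdL : ContDiffOn ℝ ∞ (fun p : Cn b × (Fin (2 * k) → ℝ) => dLx lam p.1 p.2 e)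
      (Bd c 3 ×ˢ univ) := by
    unfold dLx
    exact ContDiffOn.sum fun j _ => (hx j).smul (hdlam j)
  have hpt : ∀ {u : Cn b × (Fin (2 * k) → ℝ) → Cn b} {w : Cn b × (Fin (2 * k) → ℝ) → Cn k},
      ContDiffOn ℝ ∞ u (Bd c 3 ×ˢ univ) → ContDiffOn ℝ ∞ w (Bd c 3 ×ˢ univ) →
      ContDiffOn ℝ ∞ (fun p => ptK (u p) (w p)) (Bd c 3 ×ˢ univ) := fun hu hw =>
    ((ptL b k).restrictScalars ℝ).contDiff.comp_contDiffOn (hu.prodMk hw)
  have hH : ∀ i j, ContDiffOn ℝ ∞ (fun p : Cn b × (Fin (2 * k) → ℝ) =>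
      H (ptK p.1 (Lx lam p.1 p.2)) i j) (Bd c 3 ×ˢ univ) := fun i j =>
    (hK.smooth i j).comp (hpt hfst hL) fun p hp => by
      show base (ptK p.1 (Lx lam p.1 p.2)) ∈ Bd c R
      rw [base_ptK]
      exact hsub hp.1
  refine ⟨?_, ?_⟩
  · exact imCLM.contDiff.comp_contDiffOn (hermi_contDiffOn hH (hpt contDiffOn_const (hlam j))
      (hpt contDiffOn_const (hlam l)))
  · exact imCLM.contDiff.comp_contDiffOn (hermi_contDiffOn hH (hpt contDiffOn_const hdL)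
      (hpt contDiffOn_const (hlam l)))

end Pool.Agent.Helper35.RK
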