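import Pool.Agent.Helper36.RK.GoalsG
import Pool.Agent.Helper95.RK.Basics

/-! # RK, packet LSK: the uniform form of the approximation implies the sequential one -/

open Complex Metric Set Filter Topology MeasureTheory Matrix
open scoped ContDiff ComplexConjugate ComplexOrder Manifold

namespace Pool.Agent.Helper35.RK

open Pool.Agent.Helper95.Lin Pool.Agent.Helper16.Abund Pool.Agent.Helper92.Orb Pool.Agent.Helper10.SP
  Pool.Agent.Helper95.RK Pool.Agent.Helper36.RK

/-- The uniform form of the approximation implies the sequential one. -/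
theorem lsk : S_LSK := by
  intro b k N c P lam hL i r
  have hpos : ∀ n : ℕ, (0 : ℝ) < 1 / ((n : ℝ) + 1) := fun n => by positivity
  choose B hB using fun n : ℕ => hL i (1 / ((n : ℝ) + 1)) (hpos n)
  set s : ℕ → ℝ := fun n => max ((n : ℝ) + 1) (B n * ((n : ℝ) + 1)) with hs
  have hs1 : ∀ n : ℕ, ((n : ℝ) + 1) ≤ s n := fun n => le_max_left _ _
  have hs2 : ∀ n : ℕ, B n * ((n : ℝ) + 1) ≤ s n := fun n => le_max_right _ _
  have hn1 : ∀ n : ℕ, (0 : ℝ) < (n : ℝ) + 1 := fun n => by positivity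
  have hs0 : ∀ n : ℕ, 0 < s n := fun n => lt_of_lt_of_le (hn1 n) (hs1 n)
  choose t ht1 ht2 using fun n : ℕ => hB n (s n • r)
  refine ⟨t, s, ht1, hs0, ?_, ?_⟩
  · refine tendsto_atTop_mono hs1 ?_
    exact tendsto_atTop_add_const_right _ _ tendsto_natCast_atTop_atTop
  · intro ε hε
    have hlim : Tendsto (fun n : ℕ => 1 / ((n : ℝ) + 1)) atTop (𝓝 0) :=
      tendsto_one_div_add_atTop_nhds_zero_nat
    have hr0 : 0 < ‖r‖ + 1 := by positivity
    have hε' : 0 < ε / (‖r‖ + 1) := by positivity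
    filter_upwards [hlim.eventually (gt_mem_nhds hε')] with n hn z hz
    obtain ⟨h1, h2, h3⟩ := ht2 n z hz
    have hle : 1 / ((n : ℝ) + 1) ≤ ε := by
      refine hn.le.trans ?_
      rw [div_le_iff₀ hr0]
      nlinarith [norm_nonneg r]
    refine ⟨h1.trans hle, MB.mono h2 hle, ?_⟩
    have heq : ((s n : ℝ) : ℂ) • ∑ j, (r j : ℂ) • lam j z =
        ∑ j, (((s n • r) j : ℝ) : ℂ) • lam j z := by
      rw [Finset.smul_sum]
      refine Finset.sum_congr rfl fun j _ => ?_
      rw [smul_smul, Pi.smul_apply, smul_eq_mul, Complex.ofReal_mul]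
    rw [heq]
    refine h3.trans ?_
    rw [norm_smul, Real.norm_of_nonneg (hs0 n).le]
    have hBn : B n ≤ 1 / ((n : ℝ) + 1) * s n := by
      rw [one_div, inv_mul_eq_div, le_div_iff₀ (hn1 n)]
      exact hs2 n
    calc 1 / ((n : ℝ) + 1) * (s n * ‖r‖) + B n
        ≤ 1 / ((n : ℝ) + 1) * (s n * ‖r‖) + 1 / ((n : ℝ) + 1) * s n := by linarith
      _ = 1 / ((n : ℝ) + 1) * (‖r‖ + 1) * s n := by ring
      _ ≤ ε * s n := by
          refine mul_le_mul_of_nonneg_right ?_ (hs0 n).le
          have := hn.le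
          rwa [le_div_iff₀ hr0] at this

end Pool.Agent.Helper35.RK
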