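import Pool.Agent.Helper35.RK.Mat

/-!
# The Hermitian form on symmetric matrices
-/

open Complex Metric Set Filter Topology MeasureTheory Matrix
open scoped ContDiff ComplexConjugate ComplexOrder Manifold MatrixOrder

namespace Pool.Agent.Helper35.RK

open Pool.Agent.Helper95.Lin Pool.Agent.Helper10.SP Pool.Agent.Helper95.RK Pool.Agent.Helper36.RK

theorem hs_lin {k : ℕ} (H : Matrix (Fin k) (Fin k) ℂ) (x y : ℂ)
    (s s' t : Matrix (Fin k) (Fin k) ℂ) :
    hs H (x • s + y • s') t = x * hs H s t + y * hs H s' t := by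
  unfold hs
  rw [Matrix.add_mul, Matrix.add_mul, Matrix.add_mul, Matrix.trace_add]
  simp only [Matrix.smul_mul, Matrix.trace_smul, smul_eq_mul]

theorem hs_lin' {k : ℕ} (H : Matrix (Fin k) (Fin k) ℂ) (x y : ℂ)
    (s s' t : Matrix (Fin k) (Fin k) ℂ) :
    hs H t (x • s + y • s') = conj x * hs H t s + conj y * hs H t s' := by
  unfold hs
  rw [cj_add, cj_smul, cj_smul, Matrix.mul_add, Matrix.add_mul, Matrix.trace_add]
  simp only [Matrix.smul_mul, Matrix.mul_smul, Matrix.trace_smul, smul_eq_mul]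

theorem hs_zero {k : ℕ} (H t : Matrix (Fin k) (Fin k) ℂ) : hs H 0 t = 0 := by
  unfold hs
  simp

theorem hs_sum_left {k m : ℕ} (H : Matrix (Fin k) (Fin k) ℂ) (c : Fin m → ℂ)
    (s : Fin m → Matrix (Fin k) (Fin k) ℂ) (t : Matrix (Fin k) (Fin k) ℂ) :
    hs H (∑ i, c i • s i) t = ∑ i, c i * hs H (s i) t := by
  unfold hs
  simp only [Matrix.sum_mul, Matrix.trace_sum, Matrix.smul_mul, Matrix.trace_smul, smul_eq_mul]

theorem cj_sum {k m : ℕ} (f : Fin m → Matrix (Fin k) (Fin k) ℂ) :
    cj (∑ i, f i) = ∑ i, cj (f i) := by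
  ext p q
  simp [cj, Matrix.sum_apply]

theorem hs_sum_right {k m : ℕ} (H : Matrix (Fin k) (Fin k) ℂ) (c : Fin m → ℂ)
    (s : Fin m → Matrix (Fin k) (Fin k) ℂ) (t : Matrix (Fin k) (Fin k) ℂ) :
    hs H t (∑ i, c i • s i) = ∑ i, conj (c i) * hs H t (s i) := by
  unfold hs
  rw [cj_sum]
  simp only [cj_smul, Matrix.mul_sum, Matrix.sum_mul, Matrix.trace_sum, Matrix.smul_mul,
    Matrix.mul_smul, Matrix.trace_smul, smul_eq_mul]

/-- HSP. -/
theorem hsp : S_HSP := by
  intro k H hH
  obtain ⟨B, hB, hd⟩ := fac hH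
  have hsq : ∀ s : Matrix (Fin k) (Fin k) ℂ, s.transpose = s →
      hs H s s = ((∑ i, ∑ j, ‖xm B s i j‖ ^ 2 : ℝ) : ℂ) := by
    intro s hs1
    rw [hB, hs_sum B s s hs1]
    push_cast
    refine Finset.sum_congr rfl fun i _ => Finset.sum_congr rfl fun j _ => ?_
    rw [Complex.mul_conj, Complex.normSq_eq_norm_sq]
    push_cast
    rfl
  have h2 : ∀ s : Matrix (Fin k) (Fin k) ℂ, s.transpose = s →
      (hs H s s).im = 0 ∧ 0 ≤ (hs H s s).re ∧ (hs H s s = 0 → s = 0) := by
    intro s hs1
    rw [hsq s hs1]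
    refine ⟨Complex.ofReal_im _, ?_, ?_⟩
    · rw [Complex.ofReal_re]
      positivity
    · intro h
      rw [Complex.ofReal_eq_zero] at h
      refine xm_eq_zero hd ?_
      ext i j
      have h3 := (Finset.sum_eq_zero_iff_of_nonneg fun i _ => by positivity).1 h i (Finset.mem_univ i)
      have h4 := (Finset.sum_eq_zero_iff_of_nonneg fun i _ => by positivity).1 h3 j
        (Finset.mem_univ j)
      have h5 : ‖xm B s i j‖ = 0 := by
        have := pow_eq_zero_iff (two_ne_zero) |>.1 h4
        exact this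
      simpa using h5
  refine ⟨?_, h2, fun x y s s' t => ⟨hs_lin H x y s s' t, hs_lin' H x y s s' t⟩, ?_⟩
  · intro s s' hs1 hs2
    rw [hB, hs_sum B s' s hs1, hs_sum B s s' hs2, map_sum]
    refine Finset.sum_congr rfl fun i _ => ?_
    rw [map_sum]
    refine Finset.sum_congr rfl fun j _ => ?_
    rw [map_mul, Complex.conj_conj, mul_comm]
  · intro m s hs1
    have hX : (Matrix.of fun i j => hs H (s i) (s j)) =
        (Matrix.of fun (i : Fin m) (q : Fin k × Fin k) => xm B (s i) q.1 q.2) *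
        (Matrix.of fun (i : Fin m) (q : Fin k × Fin k) => xm B (s i) q.1 q.2)ᴴ := by
      ext i j
      rw [Matrix.of_apply, hB, hs_sum B (s i) (s j) (hs1 j), Matrix.mul_apply,
        Fintype.sum_prod_type]
      rfl
    have hps : (Matrix.of fun i j => hs H (s i) (s j)).PosSemidef := by
      rw [hX]
      exact Matrix.posSemidef_self_mul_conjTranspose _
    have hdn : 0 ≤ gram H s := hps.det_nonneg
    have hdn' := Complex.le_def.1 hdn
    refine ⟨hdn'.2.symm, hdn'.1, ?_, ?_⟩
    · intro hne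
      rw [Fintype.linearIndependent_iff]
      intro g hg
      have h3 : g ᵥ* (Matrix.of fun i j => hs H (s i) (s j)) = 0 := by
        ext j
        have h4 := hs_sum_left H g s (s j)
        rw [hg, hs_zero] at h4
        show ∑ i, g i * hs H (s i) (s j) = 0
        rw [← h4]
      exact congrFun (Matrix.eq_zero_of_vecMul_eq_zero hne h3)
    · intro hli hne
      obtain ⟨v, hv, hv0⟩ := Matrix.exists_vecMul_eq_zero_iff.2 hne
      have hsym : (∑ i, v i • s i).transpose = ∑ i, v i • s i := by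
        rw [Matrix.transpose_sum]
        refine Finset.sum_congr rfl fun i _ => ?_
        rw [Matrix.transpose_smul, hs1 i]
      have h5 : hs H (∑ i, v i • s i) (∑ i, v i • s i) = 0 := by
        rw [hs_sum_right]
        refine Finset.sum_eq_zero fun j _ => ?_
        rw [hs_sum_left]
        have h6 : ∑ i, v i * hs H (s i) (s j) = 0 := congrFun hv0 j
        rw [h6, mul_zero]
      have h7 := (h2 _ hsym).2.2 h5
      exact hv (funext (Fintype.linearIndependent_iff.1 hli v h7))

end Pool.Agent.Helper35.RK
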