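import Pool.Agent.Helper36.RK.GoalsI

/-!
# Reality of the Siegel metric on a commutative family
-/

open Complex Metric Set Filter Topology MeasureTheory Matrix
open scoped ContDiff ComplexConjugate ComplexOrder Manifold

namespace Pool.Agent.Helper35.RK

open Pool.Agent.Helper95.Lin Pool.Agent.Helper10.SP Pool.Agent.Helper95.RK Pool.Agent.Helper36.RK

theorem ball_sub_Bd {b N : ℕ} (c : Fin N → Cn b) (i : Fin N) {r r' : ℝ} (h : r ≤ r') :
    ball (c i) r ⊆ Bd c r' := fun _ hz => mem_iUnion.2 ⟨i, ball_subset_ball h hz⟩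

theorem sum_single {b m : ℕ} (V : Fin m → Cn b → Cn b) (l : Fin m) :
    (fun z => ∑ l', (((Pi.single l 1 : Fin m → ℝ) l' : ℝ) : ℂ) • V l' z) = V l := by
  funext z
  rw [Finset.sum_eq_single l]
  · simp
  · intro j _ hj
    rw [Pi.single_eq_of_ne hj]
    simp
  · intro h
    exact absurd (Finset.mem_univ l) h

theorem cfam_gen {b k N m : ℕ} {c : Fin N → Cn b} {P : Set (Cn b) → TriK b k → Prop}
    {V : Fin m → Cn b → Cn b} (hV : CFamK c P m V) (i : Fin N) (l : Fin m) :
    InfGenK c P i (V l) := by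
  have h := hV.gen i (Pi.single l 1)
  rwa [sum_single] at h

/-- IMK. -/
theorem imk (hXI : S_XIK) (hLI : S_LIFT) (hIM : S_IMB) : S_IMK := by
  intro b k N c R P Φ Hf C hF lam Om hP hO m V hV i l l' z hz
  have hpol := polK hP hO i
  have hd : ∀ j, DifferentiableOn ℂ (V j) (ball (c i) 2) := fun j =>
    (hV.holo j).mono (ball_sub_Bd c i (by norm_num))
  obtain ⟨ξ, h1, h2⟩ := hLI (ball (c i) 2) lam (Om i) hpol ⟨c i, mem_ball_self (by norm_num)⟩ V hd
    (fun j j' z hz => hV.comm z (ball_sub_Bd c i (by norm_num) hz) j j')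
    (fun j => hXI c R P Φ Hf C hF lam Om hP hO i (V j) (cfam_gen hV i j))
  exact hIM (ball (c i) 2) lam (Om i) hpol (V l) (V l') (ξ l) (ξ l') (h1 l) (h1 l') (h2 l l') z hz

end Pool.Agent.Helper35.RK
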