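import Pool.Agent.Helper35.RK.Mat

/-!
# The trace form is negative definite
-/

open Complex Metric Set Filter Topology MeasureTheory Matrix
open scoped ContDiff ComplexConjugate ComplexOrder Manifold MatrixOrder

namespace Pool.Agent.Helper35.RK

open Pool.Agent.Helper95.Lin Pool.Agent.Helper10.SP Pool.Agent.Helper95.RK Pool.Agent.Helper36.RK

theorem trace_neg {n : Type*} [Fintype n] [DecidableEq n] {G κ : Matrix n n ℝ} (hG : G.PosDef)
    (h : κ.transpose * G + G * κ = 0) : (κ * κ).trace ≤ 0 ∧ ((κ * κ).trace = 0 → κ = 0) := by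
  obtain ⟨T, hT, hd⟩ := fac hG
  have hu : IsUnit T.det := hd.isUnit
  have e1 : T * T⁻¹ = 1 := Matrix.mul_nonsing_inv T hu
  have e2 : T⁻¹ * T = 1 := Matrix.nonsing_inv_mul T hu
  have hTT : G = T.transpose * T := hT
  set S := T * κ * T⁻¹ with hS
  have hSt : S.transpose = -S := by
    have h1 : T.transpose * T * κ = -(κ.transpose * (T.transpose * T)) := by
      rw [hTT] at h
      exact eq_neg_of_add_eq_zero_right h
    have h2 : (T⁻¹).transpose * T.transpose = 1 := by
      rw [← Matrix.transpose_mul, e1, Matrix.transpose_one]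
    have h3 : (T⁻¹).transpose * (T.transpose * T * κ) * T⁻¹ = S := by
      rw [Matrix.mul_assoc T.transpose, ← Matrix.mul_assoc, h2, Matrix.one_mul]
    have h4 : (T⁻¹).transpose * (κ.transpose * (T.transpose * T)) * T⁻¹ = S.transpose := by
      rw [hS, Matrix.transpose_mul, Matrix.transpose_mul]
      calc (T⁻¹).transpose * (κ.transpose * (T.transpose * T)) * T⁻¹
          = (T⁻¹).transpose * (κ.transpose * T.transpose) * (T * T⁻¹) := by
            simp only [Matrix.mul_assoc]
        _ = _ := by rw [e1, Matrix.mul_one]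
    rw [← h4, ← h3, h1]
    simp
  have htr : (κ * κ).trace = (S * S).trace := by
    have h1 : S * S = T * (κ * κ) * T⁻¹ := by
      rw [hS]
      calc T * κ * T⁻¹ * (T * κ * T⁻¹) = T * κ * (T⁻¹ * T) * κ * T⁻¹ := by
            simp only [Matrix.mul_assoc]
        _ = _ := by
          rw [e2, Matrix.mul_one]
          simp only [Matrix.mul_assoc]
    rw [h1, Matrix.trace_mul_comm (T * (κ * κ)) T⁻¹, ← Matrix.mul_assoc, e2, Matrix.one_mul]
  have hneg : (S * S).trace = -(Sᴴ * S).trace := by
    have h1 : Sᴴ = -S := hSt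
    rw [h1, Matrix.neg_mul, Matrix.trace_neg, neg_neg]
  have hnn : 0 ≤ (Sᴴ * S).trace := (Matrix.posSemidef_conjTranspose_mul_self S).trace_nonneg
  refine ⟨by rw [htr, hneg]; linarith, fun h0 => ?_⟩
  rw [htr, hneg, neg_eq_zero, Matrix.trace_conjTranspose_mul_self_eq_zero_iff] at h0
  have h1 : κ = T⁻¹ * S * T := by
    rw [hS]
    calc κ = (T⁻¹ * T) * κ * (T⁻¹ * T) := by rw [e2, Matrix.one_mul, Matrix.mul_one]
      _ = _ := by simp only [Matrix.mul_assoc]
  rw [h1, h0, Matrix.mul_zero, Matrix.zero_mul]

/-- KNEG. -/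
theorem kneg (hA : S_ALGP) : S_KNEG := by
  intro k L Om κ hP hκ hLκ
  obtain ⟨hdet, hOmi, h3, h4, hHpd, hKH, hHK⟩ := hA L Om hP
  set K := hiM L Om with hK
  set H := K⁻¹ with hH
  obtain ⟨a, ha⟩ := h3 (L * toC κ) hLκ
  have hI : (2 * I : ℂ) ≠ 0 := mul_ne_zero two_ne_zero I_ne_zero
  have e1 : cj L * toC Om * L.transpose = (2 * I : ℂ) • K := by
    rw [hK, hiM, smul_smul, mul_one_div_cancel hI, one_smul]
  have e2 : cj L * toC Om * (cj L).transpose = 0 := by
    have h := congrArg cj hP.iso
    rw [cj_mul, cj_mul, cj_toC, cj_tr, cj_zero] at h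
    exact h
  have hHh : cj H = H.transpose := herm_cj hHpd.isHermitian
  set P : Matrix (Fin (2 * k)) (Fin (2 * k)) ℂ := L.transpose * H * cj L with hPdef
  have hcP : cj P = (cj L).transpose * H.transpose * L := by
    rw [hPdef, cj_mul, cj_mul, cj_cj, cj_tr, hHh]
  have hE : P - cj P = (2 * I : ℂ) • toC Om⁻¹ := by
    rw [hOmi, hcP, smul_smul, mul_one_div_cancel hI, one_smul]
  have hinv : IsUnit Om.det := hdet.isUnit
  have hEκ : κ.transpose * Om⁻¹ + Om⁻¹ * κ = 0 := by
    have h : κ * Om + Om * κ.transpose = 0 := hκ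
    have h1 : Om⁻¹ * (κ * Om + Om * κ.transpose) * Om⁻¹ = 0 := by
      rw [h, Matrix.mul_zero, Matrix.zero_mul]
    rw [Matrix.mul_add, Matrix.add_mul, ← Matrix.mul_assoc Om⁻¹ Om,
      Matrix.nonsing_inv_mul Om hinv, Matrix.one_mul] at h1
    rw [← Matrix.mul_assoc Om⁻¹ κ Om, Matrix.mul_assoc (Om⁻¹ * κ), Matrix.mul_nonsing_inv Om hinv,
      Matrix.mul_one] at h1
    rw [add_comm]
    exact h1
  have hM : (toC κ).transpose * P + P * toC κ =
      L.transpose * (a.transpose * H + H * cj a) * cj L := by
    have g1 : (toC κ).transpose * L.transpose = L.transpose * a.transpose := by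
      rw [← Matrix.transpose_mul, ha, Matrix.transpose_mul]
    have g2 : cj L * toC κ = cj a * cj L := by
      have := congrArg cj ha
      rw [cj_mul, cj_mul, cj_toC] at this
      exact this
    calc (toC κ).transpose * P + P * toC κ
        = ((toC κ).transpose * L.transpose) * H * cj L + L.transpose * H * (cj L * toC κ) := by
          rw [hPdef]
          simp only [Matrix.mul_assoc]
      _ = _ := by
        rw [g1, g2, Matrix.mul_add, Matrix.add_mul]
        simp only [Matrix.mul_assoc]
  set M := (toC κ).transpose * P + P * toC κ with hMdef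
  have hcM : cj M = M := by
    have h1 : M - cj M = 0 := by
      have h2 : cj M = (toC κ).transpose * cj P + cj P * toC κ := by
        rw [hMdef, cj_add, cj_mul (toC κ).transpose P, cj_mul P (toC κ), cj_tr, cj_toC]
      have h5 : M - cj M = (toC κ).transpose * (P - cj P) + (P - cj P) * toC κ := by
        rw [h2, hMdef, Matrix.mul_sub, Matrix.sub_mul]
        abel
      rw [h5, hE, Matrix.mul_smul, Matrix.smul_mul, ← smul_add, ← toC_tr, ← toC_mul, ← toC_mul]
      have h6 : toC (κ.transpose * Om⁻¹) + toC (Om⁻¹ * κ) =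
          toC (κ.transpose * Om⁻¹ + Om⁻¹ * κ) := by
        ext i j
        simp [toC]
      rw [h6, hEκ]
      ext i j
      simp [toC]
    exact (sub_eq_zero.1 h1).symm
  have hM0 : M = 0 := by
    have g1 : cj L * toC Om * M = (2 * I : ℂ) • (K * ((a.transpose * H + H * cj a) * cj L)) := by
      rw [hM]
      calc cj L * toC Om * (L.transpose * (a.transpose * H + H * cj a) * cj L)
          = (cj L * toC Om * L.transpose) * ((a.transpose * H + H * cj a) * cj L) := by
            simp only [Matrix.mul_assoc]
        _ = _ := by rw [e1, Matrix.smul_mul]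
    have g2 : cj L * toC Om * cj M = 0 := by
      rw [hM, cj_mul, cj_mul, cj_cj, cj_tr]
      calc cj L * toC Om * ((cj L).transpose * cj (a.transpose * H + H * cj a) * L)
          = (cj L * toC Om * (cj L).transpose) * (cj (a.transpose * H + H * cj a) * L) := by
            simp only [Matrix.mul_assoc]
        _ = _ := by rw [e2, Matrix.zero_mul]
    rw [hcM, g1] at g2
    have g3 : K * ((a.transpose * H + H * cj a) * cj L) = 0 := (smul_eq_zero.1 g2).resolve_left hI
    have g4 : (a.transpose * H + H * cj a) * cj L = 0 := by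
      have h := congrArg (fun X => H * X) g3
      simp only [← Matrix.mul_assoc, hHK, Matrix.one_mul, Matrix.mul_zero] at h
      exact h
    rw [hM, Matrix.mul_assoc, g4, Matrix.mul_zero]
  have hPh : ∀ i j, conj (P j i) = P i j := by
    intro i j
    have h1 : (cj P).transpose = P := by
      rw [hcP, Matrix.transpose_mul, Matrix.transpose_mul, Matrix.transpose_transpose,
        Matrix.transpose_transpose, hPdef, Matrix.mul_assoc]
    exact congrFun (congrFun h1 i) j
  refine trace_neg (G := P.map Complex.re) ?_ ?_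
  · refine PosDef.of_dotProduct_mulVec_pos ?_ ?_
    · ext i j
      have h := congrArg Complex.re (hPh i j)
      rw [Complex.conj_re] at h
      simpa using h
    · intro x hx
      have h1 : cj L *ᵥ (fun j => (x j : ℂ)) ≠ 0 := by
        intro h0
        refine hx (h4 x ?_)
        ext p
        have h2 := congrArg (starRingEnd ℂ) (congrFun h0 p)
        simp only [Matrix.mulVec, dotProduct, map_sum, map_mul, cj, Matrix.map_apply,
          Complex.conj_conj, Complex.conj_ofReal, Pi.zero_apply, map_zero] at h2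
        simpa [Matrix.mulVec, dotProduct] using h2
      have h2 := hHpd.dotProduct_mulVec_pos h1
      have h5 : star (cj L *ᵥ (fun j => (x j : ℂ))) ⬝ᵥ (H *ᵥ (cj L *ᵥ (fun j => (x j : ℂ)))) =
          star (fun j => (x j : ℂ)) ⬝ᵥ (P *ᵥ (fun j => (x j : ℂ))) := by
        have h6 : (cj L)ᴴ = L.transpose := by
          rw [conjTranspose_eq, cj_cj]
        rw [hPdef, star_mulVec, h6]
        simp only [dotProduct_mulVec, vecMul_vecMul]
      rw [h5] at h2
      have h7 := (Complex.lt_def.1 h2).1
      have h8 : (star (fun j => (x j : ℂ)) ⬝ᵥ (P *ᵥ (fun j => (x j : ℂ)))).re =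
          star x ⬝ᵥ (P.map Complex.re *ᵥ x) := by
        simp only [dotProduct, Matrix.mulVec, Pi.star_apply, Complex.re_sum, RCLike.star_def,
          Complex.conj_ofReal, Complex.re_ofReal_mul, Matrix.map_apply, star_trivial]
        refine Finset.sum_congr rfl fun i _ => ?_
        congr 1
        refine Finset.sum_congr rfl fun j _ => ?_
        rw [mul_comm (P i j), Complex.re_ofReal_mul, mul_comm]
      rw [h8] at h7
      simpa using h7
  · ext i j
    have h1 := congrArg Complex.re (congrFun (congrFun hM0 i) j)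
    rw [hMdef] at h1
    simp only [Matrix.add_apply, Matrix.mul_apply, Complex.add_re, Complex.re_sum,
      Matrix.transpose_apply, toC, Matrix.map_apply, Complex.re_ofReal_mul, Matrix.zero_apply,
      Complex.zero_re] at h1
    simp only [Matrix.add_apply, Matrix.mul_apply, Matrix.transpose_apply, Matrix.map_apply,
      Matrix.zero_apply]
    rw [← h1]
    congr 1
    refine Finset.sum_congr rfl fun l _ => ?_
    rw [mul_comm (P i l), Complex.re_ofReal_mul, mul_comm]

end Pool.Agent.Helper35.RK
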