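import Pool.Agent.Helper36.RK.GoalsP

/-!
# Matrices: conjugation, factorization
-/

open Complex Metric Set Filter Topology MeasureTheory Matrix
open scoped ContDiff ComplexConjugate ComplexOrder Manifold MatrixOrder

namespace Pool.Agent.Helper35.RK

open Pool.Agent.Helper95.Lin Pool.Agent.Helper10.SP Pool.Agent.Helper95.RK Pool.Agent.Helper36.RK

variable {l m n : Type*}

theorem cj_mul [Fintype m] (A : Matrix l m ℂ) (B : Matrix m n ℂ) : cj (A * B) = cj A * cj B := by
  unfold cj
  exact Matrix.map_mul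

theorem cj_cj (A : Matrix l m ℂ) : cj (cj A) = A := by
  ext i j
  simp [cj]

theorem cj_tr (A : Matrix l m ℂ) : cj A.transpose = (cj A).transpose := rfl

theorem cj_toC (A : Matrix l m ℝ) : cj (toC A) = toC A := by
  ext i j
  simp [cj, toC]

theorem cj_zero : cj (0 : Matrix l m ℂ) = 0 := by
  ext i j
  simp [cj]

theorem cj_add (A B : Matrix l m ℂ) : cj (A + B) = cj A + cj B := by
  ext i j
  simp [cj]

theorem cj_smul (x : ℂ) (A : Matrix l m ℂ) : cj (x • A) = (starRingEnd ℂ x) • cj A := by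
  ext i j
  simp [cj]

theorem toC_mul [Fintype m] (A : Matrix l m ℝ) (B : Matrix m n ℝ) :
    toC (A * B) = toC A * toC B := by
  ext i j
  simp [toC, Matrix.mul_apply]

theorem toC_tr (A : Matrix l m ℝ) : toC A.transpose = (toC A).transpose := rfl

theorem conjTranspose_eq (A : Matrix l m ℂ) : Aᴴ = (cj A).transpose := rfl

theorem fac {𝕜 : Type*} [RCLike 𝕜] [Fintype n] [DecidableEq n] {H : Matrix n n 𝕜}
    (h : H.PosDef) : ∃ B : Matrix n n 𝕜, H = Bᴴ * B ∧ B.det ≠ 0 := by
  obtain ⟨B, hB⟩ := CStarAlgebra.nonneg_iff_eq_star_mul_self.mp h.posSemidef.nonneg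
  refine ⟨B, hB, fun h0 => ?_⟩
  have h1 := h.det_pos
  rw [hB, Matrix.det_mul, h0, mul_zero] at h1
  exact lt_irrefl _ h1

theorem herm_cj {H : Matrix n n ℂ} (h : H.IsHermitian) : cj H = H.transpose := by
  have h1 : (cj H).transpose = H := h
  rw [← h1, Matrix.transpose_transpose, h1]

/-- The conjugated matrix which computes the form. -/
noncomputable def xm {k : ℕ} (B s : Matrix (Fin k) (Fin k) ℂ) : Matrix (Fin k) (Fin k) ℂ :=
  cj B * s * Bᴴ

theorem xm_tr {k : ℕ} (B s : Matrix (Fin k) (Fin k) ℂ) (hs : s.transpose = s) :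
    (xm B s).transpose = xm B s := by
  unfold xm
  rw [Matrix.transpose_mul, Matrix.transpose_mul, hs, conjTranspose_eq,
    Matrix.transpose_transpose, Matrix.mul_assoc]

theorem hs_eq {k : ℕ} (B s s' : Matrix (Fin k) (Fin k) ℂ) :
    hs (Bᴴ * B) s s' = (xm B s * cj (xm B s')).trace := by
  have h1 : s * (Bᴴ * B) * cj s' * (Bᴴ * B).transpose =
      (s * Bᴴ * B * cj s' * B.transpose) * cj B := by
    rw [Matrix.transpose_mul, conjTranspose_eq, Matrix.transpose_transpose]
    simp only [Matrix.mul_assoc]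
  have h2 : xm B s * cj (xm B s') = cj B * (s * Bᴴ * B * cj s' * B.transpose) := by
    unfold xm
    rw [cj_mul, cj_mul, cj_cj, conjTranspose_eq, cj_tr, cj_cj]
    simp only [Matrix.mul_assoc]
  unfold hs
  rw [h1, h2, Matrix.trace_mul_comm]

theorem hs_sum {k : ℕ} (B s s' : Matrix (Fin k) (Fin k) ℂ) (hs' : s'.transpose = s') :
    hs (Bᴴ * B) s s' = ∑ i, ∑ j, xm B s i j * conj (xm B s' i j) := by
  rw [hs_eq, Matrix.trace]
  refine Finset.sum_congr rfl fun i _ => ?_
  rw [Matrix.diag_apply, Matrix.mul_apply]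
  refine Finset.sum_congr rfl fun j _ => ?_
  have h := congrFun (congrFun (xm_tr B s' hs') i) j
  rw [Matrix.transpose_apply] at h
  show xm B s i j * conj (xm B s' j i) = _
  rw [h]

theorem xm_eq_zero {k : ℕ} {B s : Matrix (Fin k) (Fin k) ℂ} (hB : B.det ≠ 0) (h : xm B s = 0) :
    s = 0 := by
  have h1 : IsUnit (cj B) := by
    rw [Matrix.isUnit_iff_isUnit_det]
    have h2 : (cj B).det = conj B.det := by
      rw [cj]
      exact (RingHom.map_det (starRingEnd ℂ) B).symm
    rw [h2]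
    exact (map_ne_zero _).2 hB |>.isUnit
  have h2 : IsUnit (Bᴴ) := by
    rw [Matrix.isUnit_iff_isUnit_det, Matrix.det_conjTranspose]
    exact (star_ne_zero.2 hB).isUnit
  unfold xm at h
  have h3 : cj B * s = 0 := by
    have h4 : cj B * s * Bᴴ = 0 * Bᴴ := by rw [h, Matrix.zero_mul]
    exact h2.mul_right_cancel h4
  have h5 : cj B * s = cj B * 0 := by rw [h3, Matrix.mul_zero]
  exact h1.mul_left_cancel h5

end Pool.Agent.Helper35.RK
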