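import Pool.Agent.Helper35.RK.XIK
import Pool.Agent.Helper35.RK.IMK

/-!
# The curvature is real on a commutative family
-/

open Complex Metric Set Filter Topology MeasureTheory Matrix
open scoped ContDiff ComplexConjugate ComplexOrder Manifold

namespace Pool.Agent.Helper35.RK

open Pool.Agent.Helper95.Lin Pool.Agent.Helper10.SP Pool.Agent.Helper95.RK Pool.Agent.Helper36.RK

/-- RLTK. -/
theorem rltk (hMU : S_MUK) (hHV : S_HVR0) (hRL : S_RLT0) (hIM : S_IMK) (hBT : S_BTP) :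
    S_RLTK := by
  intro b k N c R P Φ Hf C hF lam Om hP hO m V hW l l' z hz
  obtain ⟨i, hzi⟩ := mem_iUnion.1 hz
  obtain ⟨μ, hμs, hμ0, hμi, hμL⟩ := hMU c R P Φ Hf C hF lam Om hP hO
  have hpol := polK hP hO i
  have hB2 : ball (c i) 2 ⊆ Bd c 2 := ball_sub_Bd c i le_rfl
  have hd : ∀ j, DifferentiableOn ℂ (V j) (ball (c i) 2) := fun j =>
    (hW.holo j).mono (ball_sub_Bd c i (by norm_num))
  have hhv : ∀ j, ∀ y ∈ ball (c i) 2, (Pool.Agent.Helper10.SP.hV μ (V j) y).re = 0 := by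
    intro j y hy
    obtain ⟨hVd, t, σ, hPt, hσ, hσ0, hest⟩ := cfam_gen hW i j
    obtain ⟨r', hr1, hr2⟩ := exists_between (mem_ball.1 hy)
    have hr0 : 0 < r' := lt_of_le_of_lt dist_nonneg hr1
    have hmaps : ∀ᶠ n in atTop, ∀ z ∈ ball (c i) r', (t n).g z ∈ ball (c i) 2 :=
      gen_maps hVd (g := fun n => (t n).g) hσ hσ0 hest hr2 (by linarith)
    refine hHV (c i) 2 r' hr0 hr2 μ (hμs.mono hB2) (fun y hy => hμ0 y (hB2 hy)) (V j) (hd j)
      (fun n => (t n).g) σ hσ hσ0 ?_ ?_ y (mem_ball.2 hr1)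
    · intro ε hε
      filter_upwards [hest ε hε] with n hn z hz
      exact hn z (ball_subset_ball (by linarith) hz)
    · filter_upwards [hmaps] with n hn
      have h4 : ball (c i) r' ⊆ ball (c i) 4 := ball_subset_ball (by linarith)
      have h2 : ball (c i) r' ⊆ ball (c i) 2 := ball_subset_ball (by linarith)
      refine ⟨(hF.holo _ _ (hPt n)).2.2.1.1.mono h4, fun z hz => ⟨hn z hz, ?_⟩⟩
      exact hμi (ball (c i) r') (t n) ⟨hF.mono _ _ _ (hPt n) isOpen_ball h4, h2.trans hB2,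
        fun z hz => hB2 (hn z hz)⟩ z hz
  have h1 := hRL (ball (c i) 2) isOpen_ball μ (V l) (V l') (hμs.mono hB2)
    (fun y hy => hμ0 y (hB2 hy)) (hd l) (hd l')
    (fun y hy => hW.comm y (ball_sub_Bd c i (by norm_num) hy) l l') (hhv l) (hhv l') z hzi
  have h2 := hIM c R P Φ Hf C hF lam Om hP hO m V hW i l l' z hzi
  have h3 := (hBT (ball (c i) 2) lam (Om i) hpol z hzi).1 (V l z) (V l' z)
  have h4 : hermi (LM Φ z) (V l z) (V l' z) =
      hermi (LM (fun y => Real.log (μ y)) z) (V l z) (V l' z) +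
        bt lam (Om i) z (V l z) (V l' z) := by
    rw [h3]
    unfold hermi
    rw [← Finset.sum_add_distrib]
    refine Finset.sum_congr rfl fun p _ => ?_
    rw [← Finset.sum_add_distrib]
    refine Finset.sum_congr rfl fun q _ => ?_
    rw [hμL i z hzi p q]
    ring
  rw [h4, Complex.add_im, h1, h2, add_zero]

end Pool.Agent.Helper35.RK
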