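import Pool.Agent.Helper36.RK.GoalsI

/-!
# Generators act through the symplectic Lie algebra
-/

open Complex Metric Set Filter Topology MeasureTheory Matrix
open scoped ContDiff ComplexConjugate ComplexOrder Manifold

namespace Pool.Agent.Helper35.RK

open Pool.Agent.Helper95.Lin Pool.Agent.Helper10.SP Pool.Agent.Helper95.RK Pool.Agent.Helper36.RK

/-- The identity theorem on a convex open set, by restriction to complex lines. -/
theorem ident_convex {n : ℕ} {F : Type*} [NormedAddCommGroup F] [NormedSpace ℂ F] [CompleteSpace F]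
    {B : Set (Cn n)} (hB : Convex ℝ B) (hBo : IsOpen B)
    {g g' : Cn n → F} (hg : DifferentiableOn ℂ g B) (hg' : DifferentiableOn ℂ g' B)
    {z₀ : Cn n} (hz₀ : z₀ ∈ B) (h : g =ᶠ[𝓝 z₀] g') : EqOn g g' B := by
  intro z hz
  set l : ℂ → Cn n := fun t => z₀ + t • (z - z₀) with hl
  have hld : Differentiable ℂ l := by
    intro t
    exact ((differentiableAt_id.smul_const (z - z₀)).const_add z₀)
  have hlc : Continuous l := hld.continuous
  have hUo : IsOpen (l ⁻¹' B) := hBo.preimage hlc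
  have hUc : Convex ℝ (l ⁻¹' B) := by
    intro s hs t ht a b ha hb hab
    have : l (a • s + b • t) = a • l s + b • l t := by
      simp only [hl]
      ext i
      simp only [Pi.add_apply, Pi.smul_apply, Pi.sub_apply, smul_eq_mul, Complex.real_smul]
      have hab' : (a : ℂ) + b = 1 := by exact_mod_cast hab
      have : z₀ i = ((a : ℂ) + b) * z₀ i := by rw [hab', one_mul]
      linear_combination this
    show l (a • s + b • t) ∈ B
    rw [this]
    exact hB hs ht ha hb hab
  have h0 : (0 : ℂ) ∈ l ⁻¹' B := by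
    show l 0 ∈ B
    simp only [hl, zero_smul, add_zero]
    exact hz₀
  have h1 : (1 : ℂ) ∈ l ⁻¹' B := by
    show l 1 ∈ B
    simp only [hl, one_smul, add_sub_cancel]
    exact hz
  have hgl : AnalyticOnNhd ℂ (g ∘ l) (l ⁻¹' B) :=
    (hg.comp hld.differentiableOn (mapsTo_preimage _ _)).analyticOnNhd hUo
  have hgl' : AnalyticOnNhd ℂ (g' ∘ l) (l ⁻¹' B) :=
    (hg'.comp hld.differentiableOn (mapsTo_preimage _ _)).analyticOnNhd hUo
  have hev : (g ∘ l) =ᶠ[𝓝 0] (g' ∘ l) := by
    have hl0 : Tendsto l (𝓝 0) (𝓝 z₀) := by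
      have := hlc.tendsto 0
      simpa only [hl, zero_smul, add_zero] using this
    exact hl0.eventually h
  have := hgl.eqOn_of_preconnected_of_eventuallyEq hgl' hUc.isPreconnected h0 hev h1
  simpa only [Function.comp, hl, one_smul, add_sub_cancel] using this

/-- A generator eventually maps smaller balls into larger ones. -/
theorem gen_maps {b : ℕ} {x₀ : Cn b} {V : Cn b → Cn b} (hV : DifferentiableOn ℂ V (ball x₀ 3))
    {g : ℕ → Cn b → Cn b} {σ : ℕ → ℝ} (hσ : ∀ n, 0 < σ n) (hσ0 : Tendsto σ atTop (𝓝 0))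
    (hg : ∀ ε > 0, ∀ᶠ n in atTop, ∀ z ∈ ball x₀ 3, ‖g n z - z - (σ n : ℂ) • V z‖ ≤ ε * σ n)
    {r r' : ℝ} (hr : r' < r) (hr3 : r' < 3) :
    ∀ᶠ n in atTop, ∀ z ∈ ball x₀ r', g n z ∈ ball x₀ r := by
  have hcont : ContinuousOn V (closedBall x₀ r') :=
    hV.continuousOn.mono (closedBall_subset_ball hr3)
  obtain ⟨B, hB⟩ := (isCompact_closedBall x₀ r').exists_bound_of_continuousOn hcont
  have hB' : ∀ z ∈ ball x₀ r', ‖V z‖ ≤ |B| := fun z hz =>
    (hB z (ball_subset_closedBall hz)).trans (le_abs_self B)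
  have h1 : Tendsto (fun n => (1 + |B|) * σ n) atTop (𝓝 0) := by
    have := hσ0.const_mul (1 + |B|)
    rwa [mul_zero] at this
  have h2 : ∀ᶠ n in atTop, (1 + |B|) * σ n < r - r' :=
    h1.eventually (gt_mem_nhds (sub_pos.2 hr))
  filter_upwards [hg 1 one_pos, h2] with n h3 h4 z hz
  have h5 := h3 z (ball_subset_ball hr3.le hz)
  have h6 : ‖g n z - z‖ ≤ (1 + |B|) * σ n := by
    have e1 : g n z - z = (g n z - z - (σ n : ℂ) • V z) + (σ n : ℂ) • V z := by abel
    rw [e1]
    refine (norm_add_le _ _).trans ?_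
    rw [norm_smul, Complex.norm_real, Real.norm_of_nonneg (hσ n).le]
    have h7 := mul_le_mul_of_nonneg_left (hB' z hz) (hσ n).le
    linarith
  rw [mem_ball] at hz ⊢
  calc dist (g n z) x₀ ≤ dist (g n z) z + dist z x₀ := dist_triangle _ _ _
    _ < r := by
      rw [dist_eq_norm]
      linarith

theorem per_mat {b k : ℕ} (t : TriK b k) (lam : Fin (2 * k) → Cn b → Cn k)
    (Q : Matrix (Fin (2 * k)) (Fin (2 * k)) ℝ) (z : Cn b) :
    (∀ j, t.A z *ᵥ lam j z = ∑ l, ((Q l j : ℝ) : ℂ) • lam l (t.g z)) ↔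
      t.A z * Lm lam z = Lm lam (t.g z) * toC Q := by
  constructor
  · intro h
    ext p j
    have h1 := congrFun (h j) p
    rw [Finset.sum_apply] at h1
    simp only [Pi.smul_apply, smul_eq_mul] at h1
    rw [Matrix.mul_apply, Matrix.mul_apply]
    simp only [Lm, toC, Matrix.of_apply, Matrix.map_apply]
    rw [show (∑ j', t.A z p j' * lam j z j') = (t.A z *ᵥ lam j z) p from rfl, h1]
    exact Finset.sum_congr rfl fun l _ => mul_comm _ _
  · intro h j
    ext p
    have h1 := congrFun (congrFun h p) j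
    rw [Matrix.mul_apply, Matrix.mul_apply] at h1
    simp only [Lm, toC, Matrix.of_apply, Matrix.map_apply] at h1
    rw [Finset.sum_apply]
    simp only [Pi.smul_apply, smul_eq_mul]
    rw [show (∑ j', t.A z p j' * lam j z j') = (t.A z *ᵥ lam j z) p from rfl] at h1
    rw [h1]
    exact Finset.sum_congr rfl fun l _ => mul_comm _ _

/-- XIK. -/
theorem xik (hXI : S_XI0) : S_XIK := by
  classical
  intro b k N c R P Φ Hf C hF lam Om hP hO i V hV
  obtain ⟨hVd, t, σ, hPt, hσ, hσ0, hest⟩ := hV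
  obtain ⟨B, hB0, hB⟩ := hP.bdd
  have hpol : Pol (ball (c i) 2) lam (Om i) := by
    refine ⟨isOpen_ball, fun j => (hP.holo j).mono fun z hz =>
      mem_iUnion.2 ⟨i, ball_subset_ball (by norm_num) hz⟩, fun z hz => ?_⟩
    exact ⟨hO.skew i, hO.rel i z hz, hO.pos i z hz⟩
  have hmaps : ∀ᶠ n in atTop, ∀ z ∈ ball (c i) (3 / 2), (t n).g z ∈ ball (c i) 2 :=
    gen_maps hVd (g := fun n => (t n).g) hσ hσ0 hest (by norm_num) (by norm_num)
  have hC0 : 0 ≤ C := le_trans zero_le_one hF.Cge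
  -- the matrices
  have key : ∀ n, (∀ z ∈ ball (c i) (3 / 2), (t n).g z ∈ ball (c i) 2) →
      ∃ Q : Matrix (Fin (2 * k)) (Fin (2 * k)) ℝ, Q * Om i * Q.transpose = Om i ∧
        (∀ z ∈ ball (c i) (3 / 2), (t n).A z * Lm lam z = Lm lam ((t n).g z) * toC Q) ∧
        ∀ p l, |Q p l| ≤ B * (C * B) := by
    intro n hn
    have hci : c i ∈ ball (c i) 4 := mem_ball_self (by norm_num)
    have hci2 : c i ∈ ball (c i) 2 := mem_ball_self (by norm_num)
    have hci3 : c i ∈ ball (c i) (3 / 2 : ℝ) := mem_ball_self (by norm_num)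
    have hg2 : (t n).g (c i) ∈ ball (c i) 2 := hn _ hci3
    have hgB : (t n).g (c i) ∈ Bd c 2 := mem_iUnion.2 ⟨i, hg2⟩
    obtain ⟨Q, U', -, hU'o, hcU', -, hQ⟩ := hP.trans _ _ (hPt n) (c i) hci
      (mem_iUnion.2 ⟨i, hci2⟩) hgB
    have hev : ∀ᶠ z' in 𝓝 (c i), ∀ j, (t n).A z' *ᵥ lam j z' =
        ∑ l, ((Q l j : ℝ) : ℂ) • lam l ((t n).g z') := by
      filter_upwards [hU'o.mem_nhds hcU'] with z' hz' using hQ z' hz'
    refine ⟨Q, hO.trans _ _ (hPt n) (c i) hci i i hci2 hg2 Q hev, ?_, ?_⟩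
    · obtain ⟨-, -, hhol, -⟩ := hF.holo _ _ (hPt n)
      obtain ⟨hol1, hol2, -⟩ := hhol
      have hb4 : ball (c i) (3 / 2 : ℝ) ⊆ ball (c i) 4 := ball_subset_ball (by norm_num)
      intro z hz
      refine (per_mat (t n) lam Q z).1 fun j => ?_
      have hlam : ∀ l, DifferentiableOn ℂ (lam l) (ball (c i) 2) := fun l => hpol.holo l
      have hl1 : DifferentiableOn ℂ (lam j) (ball (c i) (3 / 2)) :=
        (hlam j).mono (ball_subset_ball (by norm_num))
      have d1 : DifferentiableOn ℂ (fun z => (t n).A z *ᵥ lam j z) (ball (c i) (3 / 2)) := by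
        rw [differentiableOn_pi]
        intro p
        show DifferentiableOn ℂ (fun z => ∑ q, (t n).A z p q * lam j z q) _
        refine DifferentiableOn.fun_sum fun q _ => ?_
        exact ((hol2 p q).mono hb4).mul (differentiableOn_pi.1 hl1 q)
      have d2 : DifferentiableOn ℂ (fun z => ∑ l, ((Q l j : ℝ) : ℂ) • lam l ((t n).g z))
          (ball (c i) (3 / 2)) := by
        refine DifferentiableOn.fun_sum fun l _ => ?_
        exact ((hlam l).comp (hol1.mono hb4) hn).const_smul ((Q l j : ℝ) : ℂ)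
      exact ident_convex (convex_ball _ _) isOpen_ball d1 d2 hci3
        (hev.mono fun z' hz' => hz' j) hz
    · intro p l
      have h1 := (hB _ (mem_iUnion.2 ⟨i, ball_subset_ball (by norm_num) hg2⟩)
        (fun p => Q p l)).2
      have h2 := hev.self_of_nhds l
      have h3 : ‖∑ j, (((fun p => Q p l) j : ℝ) : ℂ) • lam j ((t n).g (c i))‖ ≤ C * B := by
        show ‖∑ j, ((Q j l : ℝ) : ℂ) • lam j ((t n).g (c i))‖ ≤ C * B
        rw [← h2]
        have hbig : BigK c P i (t n) := ⟨hPt n, c i, hci2, hgB⟩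
        refine ((hF.abd i (t n) hbig (c i) hci).1 _).trans ?_
        refine mul_le_mul_of_nonneg_left ?_ hC0
        have h4 := (hB (c i) (mem_iUnion.2 ⟨i, mem_ball_self (by norm_num)⟩)
          (Pi.single l 1)).1
        have h5 : ∑ j, (((Pi.single l 1 : Fin (2 * k) → ℝ) j : ℝ) : ℂ) • lam j (c i) =
            lam l (c i) := by
          rw [Finset.sum_eq_single l]
          · simp
          · intro j _ hj
            rw [Pi.single_eq_of_ne hj]
            simp
          · intro h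
            exact absurd (Finset.mem_univ l) h
        rw [h5] at h4
        refine h4.trans ?_
        have h6 : ‖(Pi.single l 1 : Fin (2 * k) → ℝ)‖ ≤ 1 := by
          refine (pi_norm_le_iff_of_nonneg zero_le_one).2 fun j => ?_
          by_cases hj : j = l
          · subst hj
            simp
          · rw [Pi.single_eq_of_ne hj]
            simp
        nlinarith
      have h7 : |Q p l| ≤ ‖fun p => Q p l‖ := by
        have := norm_le_pi_norm (fun p => Q p l) p
        rwa [Real.norm_eq_abs] at this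
      refine h7.trans (h1.trans ?_)
      exact mul_le_mul_of_nonneg_left h3 hB0.le
  have key2 : ∀ n, ∃ Q : Matrix (Fin (2 * k)) (Fin (2 * k)) ℝ,
      ((∀ z ∈ ball (c i) (3 / 2), (t n).g z ∈ ball (c i) 2) → Q * Om i * Q.transpose = Om i ∧
        ∀ z ∈ ball (c i) (3 / 2), (t n).A z * Lm lam z = Lm lam ((t n).g z) * toC Q) ∧
        ∀ p l, |Q p l| ≤ B * (C * B) := by
    intro n
    by_cases hn : ∀ z ∈ ball (c i) (3 / 2), (t n).g z ∈ ball (c i) 2
    · obtain ⟨Q, h1, h2, h3⟩ := key n hn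
      exact ⟨Q, fun _ => ⟨h1, h2⟩, h3⟩
    · refine ⟨0, fun h => absurd h hn, fun p l => ?_⟩
      rw [Matrix.zero_apply, abs_zero]
      positivity
  choose Q hQ1 hQ2 using key2
  refine hXI (c i) 2 (3 / 2) (by norm_num) (by norm_num) lam (Om i) hpol V
    (hVd.mono (ball_subset_ball (by norm_num))) (fun n => (t n).g) σ Q (fun n => (t n).A) hσ hσ0
    ?_ ?_ ⟨_, hQ2⟩
  · intro ε hε
    filter_upwards [hest ε hε] with n hn z hz
    exact hn z (ball_subset_ball (by norm_num) hz)
  · filter_upwards [hmaps] with n hn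
    obtain ⟨h1, h2⟩ := hQ1 n hn
    exact ⟨h1, fun z hz => ⟨hn z hz, h2 z hz⟩⟩

end Pool.Agent.Helper35.RK
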